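import Pool.Agent.H977.MS.L0
import Pool.Agent.H100.MS.L1
import Pool.Agent.H976.MS.L2
import Pool.Agent.H332.MS.L3
import Pool.Agent.H264.MS.L4
import Pool.Agent.H229.MS.L5
import Pool.Agent.H195.MS.L5b
import Pool.Agent.H79.MS.L6
import Pool.Agent.H664.MSL7.L7
import Pool.Agent.H118.MS.L10
import Pool.Agent.H30.H474.MSN6

set_option autoImplicit false

/-! # Project MS: the abstract equivalence -/

namespace Pool.Agent.H474.MS

open Filter Topology MeasureTheory Set

theorem SS_to_AA {ι : Type} [Countable ι] {w g : ι → ℝ} (hd : Dat w g) {β : ℝ}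
    (h : Tendsto (fun h => SS w g h / h) (𝓝[>] 0) (𝓝 β)) : Tendsto (fun T => AA w g T / T) atTop (𝓝 (β / Real.pi)) := by
  have h1 := Pool.Agent.H79.MS.L6.t_L6 Pool.Agent.H229.MS.L5.t_L5 Pool.Agent.H195.MS.L5b.t_L5b ι w g hd β h
  have h2 := Pool.Agent.H664.MS.L7.t_L7 ι w g hd _ h1
  have e : β / √(2 * Real.pi) * √(2 / Real.pi) = β / Real.pi := by
    have h3 : √(2 * Real.pi) = √2 * √Real.pi := Real.sqrt_mul (by norm_num) _
    have h4 : √(2 / Real.pi) = √2 / √Real.pi := Real.sqrt_div (by norm_num) _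
    have h5 : √Real.pi * √Real.pi = Real.pi := Real.mul_self_sqrt Real.pi_pos.le
    have h6 : 0 < √Real.pi := Real.sqrt_pos.2 Real.pi_pos
    have h7 : 0 < √(2 : ℝ) := Real.sqrt_pos.2 (by norm_num)
    rw [h3, h4]
    field_simp
    rw [sq, h5]
  rw [e] at h2
  exact h2

theorem AA_iff_SS {ι : Type} [Countable ι] {w g : ι → ℝ} (hd : Dat w g) (α : ℝ) :
    Tendsto (fun T => AA w g T / T) atTop (𝓝 α) ↔ Tendsto (fun h => SS w g h / h) (𝓝[>] 0) (𝓝 (Real.pi * α)) := by
  constructor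
  · intro h
    have h1 := Pool.Agent.H100.MS.L1.t_L1 ι w g hd α h
    obtain ⟨β, hβ⟩ := Pool.Agent.H264.MS.L4.t_L4 Pool.Agent.H976.MS.L2.t_L2 Pool.Agent.H332.MS.L3.t_L3 ι w g hd α h1
    have h2 := tendsto_nhds_unique (SS_to_AA hd hβ) h
    have h3 : β = Real.pi * α := by
      rw [← h2]
      have := Real.pi_pos.ne'
      field_simp
    rw [← h3]
    exact hβ
  · intro h
    have h1 := SS_to_AA hd h
    have h3 : Real.pi * α / Real.pi = α := by
      have := Real.pi_pos.ne'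
      field_simp
    rwa [h3] at h1

lemma SS_nonneg {ι : Type} {w g : ι → ℝ} (hd : Dat w g) (h : ℝ) : 0 ≤ SS w g h :=
  tsum_nonneg fun i => mul_nonneg (hd.w0 i) (by have := Real.cos_le_one (g i * h); linarith)

lemma SS_summable {ι : Type} {w g : ι → ℝ} (hd : Dat w g) (h : ℝ) :
    Summable fun i => w i * (2 * (1 - Real.cos (g i * h))) := by
  refine Summable.of_nonneg_of_le (fun i => mul_nonneg (hd.w0 i) (by have := Real.cos_le_one (g i * h); linarith))
    (fun i => ?_) (hd.ws.mul_right 4)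
  refine mul_le_mul_of_nonneg_left ?_ (hd.w0 i)
  have := Real.neg_one_le_cos (g i * h)
  linarith

lemma SS_le {ι : Type} {w g : ι → ℝ} (hd : Dat w g) (h : ℝ) : SS w g h ≤ 4 * ∑' i, w i := by
  rw [mul_comm, ← tsum_mul_right]
  refine Summable.tsum_le_tsum (fun i => ?_) (SS_summable hd h) (hd.ws.mul_right 4)
  refine mul_le_mul_of_nonneg_left ?_ (hd.w0 i)
  have := Real.neg_one_le_cos (g i * h)
  linarith

/-- `∑_{g_i ≤ T} w_i` -/
noncomputable def QQ {ι : Type} (w g : ι → ℝ) (T : ℝ) : ℝ := ∑' i, if g i ≤ T then w i else 0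

lemma QQ_summable {ι : Type} {w g : ι → ℝ} (hd : Dat w g) (T : ℝ) : Summable fun i => if g i ≤ T then w i else 0 := by
  refine Summable.of_nonneg_of_le (fun i => ?_) (fun i => ?_) hd.ws
  · split_ifs
    · exact hd.w0 i
    · exact le_rfl
  · split_ifs
    · exact le_rfl
    · exact hd.w0 i

lemma QQ_nonneg {ι : Type} {w g : ι → ℝ} (hd : Dat w g) (T : ℝ) : 0 ≤ QQ w g T :=
  tsum_nonneg fun i => by
    split_ifs
    · exact hd.w0 i
    · exact le_rfl

lemma QQ_le {ι : Type} {w g : ι → ℝ} (hd : Dat w g) (T : ℝ) : QQ w g T ≤ ∑' i, w i :=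
  Summable.tsum_le_tsum (fun i => by
    split_ifs
    · exact le_rfl
    · exact hd.w0 i) (QQ_summable hd T) hd.ws

lemma AA_summable {ι : Type} {w g : ι → ℝ} (hd : Dat w g) (T : ℝ) :
    Summable fun i => if g i ≤ T then w i * g i ^ 2 else 0 := by
  refine Summable.of_nonneg_of_le (fun i => ?_) (fun i => ?_) (hd.ws.mul_right (T ^ 2))
  · split_ifs
    · exact mul_nonneg (hd.w0 i) (sq_nonneg _)
    · exact le_rfl
  · split_ifs with h
    · exact mul_le_mul_of_nonneg_left (pow_le_pow_left₀ (hd.g0 i) h 2) (hd.w0 i)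
    · exact mul_nonneg (hd.w0 i) (sq_nonneg _)

lemma AA_nonneg {ι : Type} {w g : ι → ℝ} (hd : Dat w g) (T : ℝ) : 0 ≤ AA w g T :=
  tsum_nonneg fun i => by
    split_ifs
    · exact mul_nonneg (hd.w0 i) (sq_nonneg _)
    · exact le_rfl

end Pool.Agent.H474.MS
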