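import Pool.Agent.H474.MS.Stm
import Pool.Agent.Results.MP_323ce2_nt.AlmostPeriodic
import Pool.Agent.Results.MP_323ce2_nt.ZeroSumLimit
import Pool.Agent.H887.MS.N1
import Pool.Agent.H297.MS.N2

set_option autoImplicit false

/-! # Project MS: the mean square of the increments -/

namespace Pool.Agent.H474.MS

open Filter Topology MeasureTheory Set
open Pool.Agent.Results.MP_323ce2_nt

/-- the Mertens function -/
noncomputable def Mf (u : ℝ) : ℝ := ∑ n ∈ Finset.Icc 1 ⌊u⌋₊, ((ArithmeticFunction.moebius n : ℤ) : ℝ)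

/-- `M(e^v) e^(-v/2)` -/
noncomputable def ff (v : ℝ) : ℝ := Mf (Real.exp v) * Real.exp (-(v / 2))

/-- the nontrivial zeros -/
def ZZ : Set ℂ := {ρ | riemannZeta ρ = 0 ∧ 0 < ρ.re ∧ ρ.re < 1}

/-- `1/|ρ ζ'(ρ)|²` -/
noncomputable def wt (ρ : ℂ) : ℝ := 1 / ‖ρ * deriv riemannZeta ρ‖ ^ 2

/-- the weight in `[0, ∞]` -/
noncomputable def wE (ρ : ℂ) : ENNReal :=
  if ρ.re = 1 / 2 ∧ deriv riemannZeta ρ ≠ 0 then ENNReal.ofReal (1 / ‖ρ * deriv riemannZeta ρ‖ ^ 2) else ⊤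

/-- the conditions on the zeros -/
def ZC : Prop := RiemannHypothesis ∧ (∀ ρ ∈ ZZ, deriv riemannZeta ρ ≠ 0) ∧ Summable (fun ρ : ZZ => wt ρ)

/-- the weak Mertens hypothesis -/
def WM : Prop := ∃ C : ℝ, ∀ x : ℝ, 2 ≤ x → ∫ u in (1 : ℝ)..x, (Mf u / u) ^ 2 ≤ C * Real.log x

theorem wm_iff : WM ↔ ZC := ZeroSumLimit.result.2.1

theorem of_freq {C : ℝ} (h : ∃ᶠ x : ℝ in atTop, (∫ u in (1 : ℝ)..x, (Mf u / u) ^ 2) ≤ C * Real.log x) : ZC :=
  (ZeroSumLimit.result.2.2 C h).1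

theorem ZC.strip (h : ZC) {ρ : ℂ} (hρ : ρ ∈ ZZ) : ρ.re = 1 / 2 ∧ deriv riemannZeta ρ ≠ 0 :=
  ⟨Pool.Agent.H313.ZC.rh_iff_strip.1 h.1 ρ hρ, h.2.1 ρ hρ⟩

lemma wt_nonneg (ρ : ℂ) : 0 ≤ wt ρ := by unfold wt; positivity

/-- the frequencies -/
noncomputable def gg (ρ : ZZ) : ℝ := |(ρ : ℂ).im|

/-- the weights -/
noncomputable def ww (ρ : ZZ) : ℝ := wt ρ

theorem ZC.dat (h : ZC) : Dat ww gg where
  w0 := fun ρ => wt_nonneg ρ
  ws := h.2.2
  g0 := fun ρ => abs_nonneg _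

theorem ZC.countable (h : ZC) : Countable ZZ := by
  have h1 := h.2.2.countable_support
  have h2 : Function.support (fun ρ : ZZ => wt ρ) = Set.univ := by
    refine Set.eq_univ_of_forall fun ρ => ?_
    rw [Function.mem_support]
    have h3 := h.strip ρ.2
    have h4 : (ρ : ℂ) ≠ 0 := by
      intro h5
      have := h3.1
      rw [h5] at this
      simp at this
    have : 0 < ‖(ρ : ℂ) * deriv riemannZeta ρ‖ := norm_pos_iff.2 (mul_ne_zero h4 h3.2)
    unfold wt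
    positivity
  rw [h2] at h1
  exact Set.countable_univ_iff.1 h1

theorem ff_meas : Measurable ff := Pool.Agent.TH223.AP.ft_LB.meas

theorem ff_bdd : ∀ V : ℝ, ∃ B : ℝ, ∀ v ∈ Icc 0 V, |ff v| ≤ B := by
  intro V
  obtain ⟨B, hB⟩ := Pool.Agent.TH223.AP.ft_LB.bdd V
  refine ⟨max B |ff 0|, fun v hv => ?_⟩
  rcases eq_or_lt_of_le hv.1 with h | h
  · rw [← h]; exact le_max_right _ _
  · exact (hB v ⟨h, hv.2⟩).trans (le_max_left _ _)

/-- the total mass -/
noncomputable def W : ℝ := ∑' ρ : ZZ, ww ρ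

theorem sq_lim (h : ZC) : Tendsto (mean fun v => ff v ^ 2) atTop (𝓝 W) := by
  have h1 := (AlmostPeriodic.result.2 (wm_iff.2 h)).2.2.1 0 le_rfl
  have e1 : (AlmostPeriodic.mean fun v => AlmostPeriodic.f v * AlmostPeriodic.f (v + 0)) = mean fun v => ff v ^ 2 := by
    funext V
    show (∫ v in (0 : ℝ)..V, ff v * ff (v + 0)) / V = (∫ v in (0 : ℝ)..V, ff v ^ 2) / V
    simp only [add_zero, sq]
  have e2 : (∑' ρ : AlmostPeriodic.Zeros, AlmostPeriodic.weight ρ * Real.cos ((ρ : ℂ).im * 0)) = W := by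
    simp only [mul_zero, Real.cos_zero, mul_one]
    rfl
  rw [e1, e2] at h1
  exact h1

theorem corr_lim (hz : ZC) {h : ℝ} (h0 : 0 ≤ h) : Tendsto (mean fun v => ff v * ff (v + h)) atTop
    (𝓝 (∑' ρ : ZZ, ww ρ * Real.cos ((ρ : ℂ).im * h))) :=
  (AlmostPeriodic.result.2 (wm_iff.2 hz)).2.2.1 h h0

lemma cos_gg (ρ : ZZ) {h : ℝ} (h0 : 0 ≤ h) : Real.cos (gg ρ * h) = Real.cos ((ρ : ℂ).im * h) := by
  have : gg ρ * h = |(ρ : ℂ).im * h| := by rw [abs_mul, abs_of_nonneg h0]; rfl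
  rw [this, Real.cos_abs]

lemma cos_summable (hz : ZC) (h : ℝ) : Summable fun ρ : ZZ => ww ρ * Real.cos ((ρ : ℂ).im * h) := by
  refine Summable.of_norm_bounded hz.2.2 fun ρ => ?_
  have h1 := wt_nonneg (ρ : ℂ)
  have h2 : |ww ρ| = wt ρ := abs_of_nonneg h1
  rw [norm_mul, Real.norm_eq_abs, Real.norm_eq_abs, h2]
  have := Real.abs_cos_le_one ((ρ : ℂ).im * h)
  nlinarith

lemma SS_eq (hz : ZC) {h : ℝ} (h0 : 0 ≤ h) :
    SS ww gg h = 2 * W - 2 * ∑' ρ : ZZ, ww ρ * Real.cos ((ρ : ℂ).im * h) := by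
  unfold SS W
  have hs : Summable ww := hz.2.2
  rw [← tsum_mul_left, ← tsum_mul_left, ← Summable.tsum_sub (hs.mul_left 2) ((cos_summable hz h).mul_left 2)]
  refine tsum_congr fun ρ => ?_
  rw [cos_gg ρ h0]
  ring

/-- the limit of the mean square of the increments -/
noncomputable def VV (h : ℝ) : ℝ := (Real.exp (h / 2) - 1) ^ 2 * W + Real.exp (h / 2) * SS ww gg h

theorem inc_lim (hz : ZC) {h : ℝ} (h0 : 0 ≤ h) :
    Tendsto (mean fun v => (Real.exp (h / 2) * ff (v + h) - ff v) ^ 2) atTop (𝓝 (VV h)) := by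
  have h1 := Pool.Agent.H887.MS.N1.t_N1 ff ff_meas ff_bdd W _ h h0 (sq_lim hz) (corr_lim hz h0)
  have e1 : (Real.exp h + 1) * W - 2 * Real.exp (h / 2) * ∑' ρ : ZZ, ww ρ * Real.cos ((ρ : ℂ).im * h) = VV h := by
    unfold VV
    rw [SS_eq hz h0]
    have : Real.exp h = Real.exp (h / 2) ^ 2 := by rw [sq, ← Real.exp_add]; ring_nf
    rw [this]
    ring
  rw [e1] at h1
  exact h1

/-- change of variables -/
theorem cov (δ : ℝ) (hδ : 0 < δ) (κ : ℝ) (hκ : 0 < κ) (φ : ℝ → ℝ) {x : ℝ} (hx : 1 ≤ x) :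
    (∫ u in (1 : ℝ)..x, φ ((Mf ((1 + δ) * u) - Mf u) / √(κ * u)) / u) / Real.log x =
      mean (fun v => φ (1 / √κ * (Real.exp (Real.log (1 + δ) / 2) * ff (v + Real.log (1 + δ)) - ff v))) (Real.log x) := by
  unfold mean
  congr 1
  have hlog := Real.log_nonneg hx
  obtain ⟨L, hL⟩ : ∃ L : ℝ, L = Real.log x := ⟨_, rfl⟩
  have hxL : x = Real.exp L := by rw [hL, Real.exp_log (by linarith)]
  rw [← hL] at hlog ⊢
  rw [hxL, intervalIntegral.integral_of_le (Real.one_le_exp hlog), intervalIntegral.integral_of_le hlog]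
  have h := integral_image_eq_integral_abs_deriv_smul (s := Set.Ioc 0 L) (f := Real.exp) (f' := Real.exp)
    measurableSet_Ioc (fun x _ => (Real.hasDerivAt_exp x).hasDerivWithinAt) (Real.exp_injective.injOn)
    (fun u => φ ((Mf ((1 + δ) * u) - Mf u) / √(κ * u)) / u)
  have himg : Real.exp '' Set.Ioc 0 L = Set.Ioc 1 (Real.exp L) := by
    ext y
    simp only [Set.mem_image, Set.mem_Ioc]
    constructor
    · rintro ⟨x, hx, rfl⟩
      exact ⟨Real.one_lt_exp_iff.2 hx.1, Real.exp_le_exp.2 hx.2⟩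
    · intro hy
      have hy0 : 0 < y := by linarith [hy.1]
      exact ⟨Real.log y, ⟨Real.log_pos hy.1, (Real.log_le_iff_le_exp hy0).2 hy.2⟩, Real.exp_log hy0⟩
  rw [himg] at h
  rw [h]
  refine integral_congr_ae (Eventually.of_forall fun s => ?_)
  simp only
  obtain ⟨η, hη⟩ : ∃ η : ℝ, η = Real.log (1 + δ) := ⟨_, rfl⟩
  have hη1 : 1 + δ = Real.exp η := by rw [hη, Real.exp_log (by linarith)]
  rw [← hη, hη1]
  have e1 : √(κ * Real.exp s) = √κ * Real.exp (s / 2) := by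
    rw [Real.sqrt_mul hκ.le]
    congr 1
    rw [Real.sqrt_eq_iff_mul_self_eq (Real.exp_pos s).le (Real.exp_pos _).le, ← Real.exp_add]
    ring_nf
  have e2 : (Mf (Real.exp η * Real.exp s) - Mf (Real.exp s)) / √(κ * Real.exp s) =
      1 / √κ * (Real.exp (η / 2) * ff (s + η) - ff s) := by
    rw [e1]
    unfold ff
    have e3 : Real.exp η * Real.exp s = Real.exp (s + η) := by rw [← Real.exp_add, add_comm]
    have e4 : Real.exp (η / 2) * (Mf (Real.exp (s + η)) * Real.exp (-((s + η) / 2))) =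
        Mf (Real.exp (s + η)) * Real.exp (-(s / 2)) := by
      have : Real.exp (-(s / 2)) = Real.exp (η / 2) * Real.exp (-((s + η) / 2)) := by
        rw [← Real.exp_add]; congr 1; ring
      rw [this]; ring
    rw [e3, e4]
    have e5 : Real.exp (-(s / 2)) = 1 / Real.exp (s / 2) := by rw [Real.exp_neg, one_div]
    rw [e5]
    have := (Real.exp_pos (s / 2)).ne'
    have := (Real.sqrt_pos.2 hκ).ne'
    field_simp
  rw [e2, abs_of_pos (Real.exp_pos s), smul_eq_mul]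
  have := (Real.exp_pos s).ne'
  field_simp

/-- if the increments have bounded mean square along a sequence then the conditions on the zeros hold -/
theorem inc_conv {h C : ℝ} (h0 : 0 < h)
    (hf : ∃ᶠ V : ℝ in atTop, mean (fun v => (Real.exp (h / 2) * ff (v + h) - ff v) ^ 2) V ≤ C) : ZC := by
  obtain ⟨C', hC'⟩ := Pool.Agent.H297.MS.N2.t_N2 ff ff_meas ff_bdd h C h0 hf
  have h1 : ∃ᶠ x : ℝ in atTop, mean (fun v => ff v ^ 2) (Real.log x) ≤ C' := by
    rw [Filter.frequently_atTop] at hC' ⊢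
    intro a
    obtain ⟨V, hV, hV2⟩ := hC' (Real.log (max a 1))
    refine ⟨Real.exp V, ?_, by rw [Real.log_exp]; exact hV2⟩
    have : max a 1 ≤ Real.exp V := by
      rw [← Real.log_le_iff_le_exp (lt_of_lt_of_le one_pos (le_max_right _ _))]; exact hV
    exact (le_max_left _ _).trans this
  refine of_freq (C := C') ((h1.and_eventually (eventually_gt_atTop (1 : ℝ))).mono fun x hx => ?_)
  obtain ⟨h2, h3⟩ := hx
  have hl : 0 < Real.log x := Real.log_pos h3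
  have h4 := AlmostPeriodic.cov (fun t => t ^ 2) h3.le
  have h5 : mean (fun v => ff v ^ 2) (Real.log x) = (∫ u in (1 : ℝ)..x, (Mf u / √u) ^ 2 / u) / Real.log x := h4.symm
  rw [h5, div_le_iff₀ hl] at h2
  refine le_trans (le_of_eq ?_) h2
  refine intervalIntegral.integral_congr fun u hu => ?_
  rw [uIcc_of_le h3.le] at hu
  have hu0 : 0 < u := by linarith [hu.1]
  rw [div_pow, div_pow, Real.sq_sqrt hu0.le]
  field_simp

end Pool.Agent.H474.MS
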