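import Pool.Agent.H474.MS.Nt1
import Pool.Agent.H474.MS.Ab

set_option autoImplicit false

/-! # Project MS: the variance and `J_{-1}(T)` -/

namespace Pool.Agent.H474.MS

open Filter Topology MeasureTheory Set

/-- the variance in `[0, ∞]` -/
noncomputable def vE (δ : ℝ) : ENNReal :=
  ∑' ρ : ZZ, wE ρ * ENNReal.ofReal (‖((1 + δ : ℝ) : ℂ) ^ (ρ : ℂ) - 1‖ ^ 2 / (6 / Real.pi ^ 2 * δ))

lemma kap_pos {δ : ℝ} (hδ : 0 < δ) : 0 < 6 / Real.pi ^ 2 * δ := by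
  have := Real.pi_pos
  positivity

lemma cpow_eq {δ : ℝ} (hδ : 0 < δ) (ρ : ℂ) :
    ((1 + δ : ℝ) : ℂ) ^ ρ = Complex.exp ((Real.log (1 + δ) : ℂ) * ρ) := by
  rw [Complex.cpow_def_of_ne_zero (by exact_mod_cast (show (1 + δ : ℝ) ≠ 0 by positivity)), Complex.ofReal_log (by positivity)]

lemma norm_inc {ρ : ℂ} (hρ : ρ.re = 1 / 2) {δ : ℝ} (hδ : 0 < δ) :
    ‖((1 + δ : ℝ) : ℂ) ^ ρ - 1‖ ^ 2 = (Real.exp (Real.log (1 + δ) / 2) - 1) ^ 2 +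
      Real.exp (Real.log (1 + δ) / 2) * (2 * (1 - Real.cos (|ρ.im| * Real.log (1 + δ)))) := by
  rw [cpow_eq hδ]
  obtain ⟨η, hη⟩ : ∃ η : ℝ, η = Real.log (1 + δ) := ⟨_, rfl⟩
  have hη0 : 0 ≤ η := by rw [hη]; exact Real.log_nonneg (by linarith)
  rw [← hη]
  have h1 : Real.cos (|ρ.im| * η) = Real.cos (η * ρ.im) := by
    have : |ρ.im| * η = |η * ρ.im| := by rw [abs_mul, abs_of_nonneg hη0, mul_comm]
    rw [this, Real.cos_abs]
  rw [h1, ← Complex.normSq_eq_norm_sq, Complex.normSq_apply]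
  have h2 : ((η : ℂ) * ρ).re = η / 2 := by rw [Complex.re_ofReal_mul, hρ]; ring
  have h3 : ((η : ℂ) * ρ).im = η * ρ.im := Complex.im_ofReal_mul _ _
  simp only [Complex.sub_re, Complex.sub_im, Complex.exp_re, Complex.exp_im, h2, h3, Complex.one_re, Complex.one_im]
  have h4 := Real.sin_sq_add_cos_sq (η * ρ.im)
  ring_nf
  have h5 : Real.sin (η * ρ.im) ^ 2 = 1 - Real.cos (η * ρ.im) ^ 2 := by linarith
  rw [h5]
  ring

lemma norm_inc_pos {ρ : ℂ} (hρ : 0 < ρ.re) {δ : ℝ} (hδ : 0 < δ) : 0 < ‖((1 + δ : ℝ) : ℂ) ^ ρ - 1‖ := by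
  rw [norm_pos_iff, sub_ne_zero]
  intro h
  have h1 := congrArg norm h
  rw [Complex.norm_cpow_eq_rpow_re_of_pos (by positivity), norm_one] at h1
  have h2 : 1 < (1 + δ) ^ ρ.re := Real.one_lt_rpow (by linarith) hρ
  linarith

lemma wE_eq (hz : ZC) (ρ : ZZ) : wE ρ = ENNReal.ofReal (ww ρ) := by
  unfold wE
  rw [if_pos (hz.strip ρ.2)]
  rfl

theorem vE_eq (hz : ZC) {δ : ℝ} (hδ : 0 < δ) :
    vE δ = ENNReal.ofReal (VV (Real.log (1 + δ)) / (6 / Real.pi ^ 2 * δ)) := by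
  obtain ⟨k, hk⟩ : ∃ k : ℝ, k = 6 / Real.pi ^ 2 * δ := ⟨_, rfl⟩
  have hk0 : 0 < k := by rw [hk]; exact kap_pos hδ
  obtain ⟨η, hη⟩ : ∃ η : ℝ, η = Real.log (1 + δ) := ⟨_, rfl⟩
  have hd := hz.dat
  have s1 : Summable fun ρ : ZZ => ww ρ * ((Real.exp (η / 2) - 1) ^ 2) := hd.ws.mul_right _
  have s2 : Summable fun ρ : ZZ => Real.exp (η / 2) * (ww ρ * (2 * (1 - Real.cos (gg ρ * η)))) :=
    (SS_summable hd η).mul_left _
  have s3 : Summable fun ρ : ZZ => (ww ρ * ((Real.exp (η / 2) - 1) ^ 2) +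
      Real.exp (η / 2) * (ww ρ * (2 * (1 - Real.cos (gg ρ * η))))) / k := (s1.add s2).div_const _
  have e1 : ∀ ρ : ZZ, wE ρ * ENNReal.ofReal (‖((1 + δ : ℝ) : ℂ) ^ (ρ : ℂ) - 1‖ ^ 2 / k) =
      ENNReal.ofReal ((ww ρ * ((Real.exp (η / 2) - 1) ^ 2) +
      Real.exp (η / 2) * (ww ρ * (2 * (1 - Real.cos (gg ρ * η))))) / k) := by
    intro ρ
    rw [wE_eq hz, ← ENNReal.ofReal_mul (hd.w0 ρ), norm_inc (hz.strip ρ.2).1 hδ, ← hη]
    congr 1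
    show ww ρ * (((Real.exp (η / 2) - 1) ^ 2 + Real.exp (η / 2) * (2 * (1 - Real.cos (gg ρ * η)))) / k) = _
    ring
  have e2 : VV η / k = ∑' ρ : ZZ, (ww ρ * ((Real.exp (η / 2) - 1) ^ 2) +
      Real.exp (η / 2) * (ww ρ * (2 * (1 - Real.cos (gg ρ * η))))) / k := by
    rw [tsum_div_const, Summable.tsum_add s1 s2, tsum_mul_right, tsum_mul_left]
    unfold VV W SS
    ring
  unfold vE
  rw [← hk, ← hη, e2, ENNReal.ofReal_tsum_of_nonneg (fun ρ => ?_) s3]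
  · exact tsum_congr e1
  · refine div_nonneg (add_nonneg (mul_nonneg (wt_nonneg _) (sq_nonneg _)) (mul_nonneg (Real.exp_pos _).le
      (mul_nonneg (wt_nonneg _) ?_))) hk0.le
    have := Real.cos_le_one (gg ρ * η)
    linarith

theorem of_vE {δ : ℝ} (hδ : 0 < δ) (hne : vE δ ≠ ⊤) : ZC := by
  obtain ⟨k, hk⟩ : ∃ k : ℝ, k = 6 / Real.pi ^ 2 * δ := ⟨_, rfl⟩
  have hk0 : 0 < k := by rw [hk]; exact kap_pos hδ
  unfold vE at hne
  rw [← hk] at hne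
  have h1 := ENNReal.ne_top_of_tsum_ne_top hne
  have h2 : ∀ ρ ∈ ZZ, ρ.re = 1 / 2 ∧ deriv riemannZeta ρ ≠ 0 := by
    intro ρ hρ
    by_contra h
    refine h1 ⟨ρ, hρ⟩ ?_
    have h3 : wE ρ = ⊤ := by unfold wE; rw [if_neg h]
    show wE ρ * ENNReal.ofReal (‖((1 + δ : ℝ) : ℂ) ^ ρ - 1‖ ^ 2 / k) = ⊤
    rw [h3, ENNReal.top_mul]
    rw [Ne, ENNReal.ofReal_eq_zero, not_le]
    have := norm_inc_pos hρ.2.1 hδ
    positivity
  refine ⟨Pool.Agent.H313.ZC.rh_iff_strip.2 fun ρ hρ => (h2 ρ hρ).1, fun ρ hρ => (h2 ρ hρ).2, ?_⟩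
  have h3 := ENNReal.summable_toReal hne
  obtain ⟨η, hη⟩ : ∃ η : ℝ, η = Real.log (1 + δ) := ⟨_, rfl⟩
  have hη0 : 0 < η := by rw [hη]; exact Real.log_pos (by linarith)
  have hc0 : 0 < (Real.exp (η / 2) - 1) ^ 2 := by
    have : 1 < Real.exp (η / 2) := Real.one_lt_exp_iff.2 (by positivity)
    have : 0 < Real.exp (η / 2) - 1 := by linarith
    positivity
  refine Summable.of_nonneg_of_le (fun ρ => wt_nonneg _) (fun ρ => ?_) (h3.mul_right (k / (Real.exp (η / 2) - 1) ^ 2))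
  have h4 := h2 ρ ρ.2
  have h5 : wE ρ = ENNReal.ofReal (wt ρ) := by unfold wE; rw [if_pos h4]; rfl
  rw [h5, ← ENNReal.ofReal_mul (wt_nonneg _), ENNReal.toReal_ofReal (mul_nonneg (wt_nonneg _) (by positivity)),
    norm_inc h4.1 hδ, ← hη]
  have h6 : 0 ≤ Real.exp (η / 2) * (2 * (1 - Real.cos (|(ρ : ℂ).im| * η))) := by
    have := Real.cos_le_one (|(ρ : ℂ).im| * η)
    have := Real.exp_pos (η / 2)
    exact mul_nonneg this.le (by linarith)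
  have h7 : wt ρ * (((Real.exp (η / 2) - 1) ^ 2 + Real.exp (η / 2) * (2 * (1 - Real.cos (|(ρ : ℂ).im| * η)))) / k) *
      (k / (Real.exp (η / 2) - 1) ^ 2) = wt ρ * (1 + Real.exp (η / 2) * (2 * (1 - Real.cos (|(ρ : ℂ).im| * η))) /
        (Real.exp (η / 2) - 1) ^ 2) := by
    generalize (Real.exp (η / 2) - 1) ^ 2 = c0 at hc0
    generalize Real.exp (η / 2) * (2 * (1 - Real.cos (|(ρ : ℂ).im| * η))) = B0
    have := hc0.ne'
    have := hk0.ne'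
    field_simp
  rw [h7]
  have h8 : 0 ≤ Real.exp (η / 2) * (2 * (1 - Real.cos (|(ρ : ℂ).im| * η))) / (Real.exp (η / 2) - 1) ^ 2 :=
    div_nonneg h6 hc0.le
  have h9 := wt_nonneg (ρ : ℂ)
  nlinarith

/-- the logarithmic mean of the square of the normalised sums -/
noncomputable def DD (δ x : ℝ) : ℝ :=
  (∫ u in (1 : ℝ)..x, ((Mf ((1 + δ) * u) - Mf u) / √(6 / Real.pi ^ 2 * δ * u)) ^ 2 / u) / Real.log x

lemma DD_eq {δ : ℝ} (hδ : 0 < δ) {x : ℝ} (hx : 1 ≤ x) :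
    DD δ x = mean (fun v => (Real.exp (Real.log (1 + δ) / 2) * ff (v + Real.log (1 + δ)) - ff v) ^ 2) (Real.log x) /
      (6 / Real.pi ^ 2 * δ) := by
  unfold DD
  rw [cov δ hδ _ (kap_pos hδ) (fun t => t ^ 2) hx]
  unfold mean
  have e1 : ∀ v : ℝ, (1 / √(6 / Real.pi ^ 2 * δ) * (Real.exp (Real.log (1 + δ) / 2) * ff (v + Real.log (1 + δ)) - ff v)) ^ 2 =
      1 / (6 / Real.pi ^ 2 * δ) * (Real.exp (Real.log (1 + δ) / 2) * ff (v + Real.log (1 + δ)) - ff v) ^ 2 := by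
    intro v
    rw [mul_pow, div_pow, Real.sq_sqrt (kap_pos hδ).le, one_pow]
  simp_rw [e1]
  rw [intervalIntegral.integral_const_mul]
  ring

theorem DD_lim {δ : ℝ} (hδ : 0 < δ) : Tendsto (fun x => ENNReal.ofReal (DD δ x)) atTop (𝓝 (vE δ)) := by
  have hη0 : 0 < Real.log (1 + δ) := Real.log_pos (by linarith)
  by_cases hz : ZC
  · rw [vE_eq hz hδ]
    refine (ENNReal.continuous_ofReal.tendsto _).comp ?_
    have h1 := ((inc_lim hz hη0.le).comp Real.tendsto_log_atTop).div_const (6 / Real.pi ^ 2 * δ)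
    refine h1.congr' ?_
    filter_upwards [eventually_ge_atTop (1 : ℝ)] with x hx
    rw [DD_eq hδ hx]
    rfl
  · have h1 : vE δ = ⊤ := by
      by_contra h
      exact hz (of_vE hδ h)
    rw [h1]
    refine ENNReal.tendsto_ofReal_nhds_top.2 ?_
    rw [tendsto_atTop]
    intro b
    by_contra hb
    apply hz
    have h2 : ∃ᶠ x : ℝ in atTop, DD δ x < b := by
      rw [Filter.not_eventually] at hb
      exact hb.mono fun x hx => not_le.1 hx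
    refine inc_conv (C := b * (6 / Real.pi ^ 2 * δ)) hη0 ?_
    rw [Filter.frequently_atTop] at h2 ⊢
    intro a
    obtain ⟨x, hx, hx2⟩ := h2 (max 1 (Real.exp a))
    have hx1 : 1 ≤ x := (le_max_left _ _).trans hx
    refine ⟨Real.log x, ?_, ?_⟩
    · show a ≤ Real.log x
      rw [Real.le_log_iff_exp_le (by linarith)]
      exact (le_max_right _ _).trans hx
    · rw [DD_eq hδ hx1, div_lt_iff₀ (kap_pos hδ)] at hx2
      exact hx2.le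

/-- `J_{-1}(T)` in `[0, ∞]` -/
noncomputable def JJ (T : ℝ) : ENNReal :=
  ∑' ρ : ZZ, if 0 < (ρ : ℂ).im ∧ (ρ : ℂ).im ≤ T then (ENNReal.ofReal (‖deriv riemannZeta ρ‖ ^ 2))⁻¹ else 0

lemma conj_mem {ρ : ℂ} (hρ : ρ ∈ ZZ) : (starRingEnd ℂ) ρ ∈ ZZ := by
  refine ⟨?_, ?_, ?_⟩
  · rw [riemannZeta_conj, hρ.1, map_zero]
  · rw [Complex.conj_re]; exact hρ.2.1
  · rw [Complex.conj_re]; exact hρ.2.2

lemma ne_one {ρ : ℂ} (hρ : ρ ∈ ZZ) : ρ ≠ 1 := by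
  intro h
  have := hρ.2.2
  rw [h] at this
  simp at this

lemma deriv_conj {ρ : ℂ} (hρ : ρ ∈ ZZ) : deriv riemannZeta ((starRingEnd ℂ) ρ) = (starRingEnd ℂ) (deriv riemannZeta ρ) := by
  have h1 := (differentiableAt_riemannZeta (ne_one hρ)).hasDerivAt
  have h2 := h1.conj_conj
  have h3 : (starRingEnd ℂ) ∘ riemannZeta ∘ (starRingEnd ℂ) = riemannZeta := by
    funext s
    simp only [Function.comp_apply]
    rw [riemannZeta_conj, Complex.conj_conj]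
  rw [h3] at h2
  exact h2.deriv

lemma two_JJ (T : ℝ) :
    ∑' ρ : ZZ, (if gg ρ ≤ T then (ENNReal.ofReal (‖deriv riemannZeta ρ‖ ^ 2))⁻¹ else 0) = 2 * JJ T :=
  Pool.Agent.H30.MS.N6.t_N6 ZZ (fun _ h => conj_mem h) (fun _ h => Pool.Agent.H313.ZC.im_ne h)
    (fun ρ => (ENNReal.ofReal (‖deriv riemannZeta ρ‖ ^ 2))⁻¹) (fun ρ h => by
      rw [deriv_conj h, Complex.norm_conj]) T

lemma b_eq (hz : ZC) (ρ : ZZ) : (ENNReal.ofReal (‖deriv riemannZeta ρ‖ ^ 2))⁻¹ = ENNReal.ofReal (ww ρ * gg ρ ^ 2 + 1 / 4 * ww ρ) := by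
  have h1 := hz.strip ρ.2
  have h2 : 0 < ‖deriv riemannZeta ρ‖ := norm_pos_iff.2 h1.2
  rw [← ENNReal.ofReal_inv_of_pos (by positivity)]
  congr 1
  have h3 : ‖(ρ : ℂ)‖ ^ 2 = gg ρ ^ 2 + 1 / 4 := by
    rw [← Complex.normSq_eq_norm_sq, Complex.normSq_apply, h1.1]
    unfold gg
    rw [sq_abs]
    ring
  have h4 : 0 < ‖(ρ : ℂ)‖ ^ 2 := by rw [h3]; positivity
  have h5 : ww ρ = 1 / (‖(ρ : ℂ)‖ ^ 2 * ‖deriv riemannZeta ρ‖ ^ 2) := by
    unfold ww wt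
    rw [norm_mul, mul_pow]
  rw [h5]
  have h6 : 1 / (‖(ρ : ℂ)‖ ^ 2 * ‖deriv riemannZeta ρ‖ ^ 2) * gg ρ ^ 2 + 1 / 4 * (1 / (‖(ρ : ℂ)‖ ^ 2 * ‖deriv riemannZeta ρ‖ ^ 2)) =
      (gg ρ ^ 2 + 1 / 4) / (‖(ρ : ℂ)‖ ^ 2 * ‖deriv riemannZeta ρ‖ ^ 2) := by ring
  rw [h6, ← h3]
  have h7 : ‖(ρ : ℂ)‖ ^ 2 ≠ 0 := h4.ne'
  have h8 : ‖deriv riemannZeta ρ‖ ^ 2 ≠ 0 := by positivity
  generalize ‖(ρ : ℂ)‖ ^ 2 = A at h7
  generalize ‖deriv riemannZeta ρ‖ ^ 2 = B at h8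
  field_simp

lemma JJ_eq (hz : ZC) (T : ℝ) : JJ T = ENNReal.ofReal ((AA ww gg T + 1 / 4 * QQ ww gg T) / 2) := by
  have hd := hz.dat
  have h1 := two_JJ T
  have h2 : ∀ ρ : ZZ, (if gg ρ ≤ T then (ENNReal.ofReal (‖deriv riemannZeta ρ‖ ^ 2))⁻¹ else 0) =
      ENNReal.ofReal ((if gg ρ ≤ T then ww ρ * gg ρ ^ 2 else 0) + 1 / 4 * (if gg ρ ≤ T then ww ρ else 0)) := by
    intro ρ
    split_ifs
    · exact b_eq hz ρ
    · simp
  rw [tsum_congr h2, ← ENNReal.ofReal_tsum_of_nonneg] at h1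
  · rw [Summable.tsum_add (AA_summable hd T) ((QQ_summable hd T).mul_left _), tsum_mul_left] at h1
    have h3 : AA ww gg T + 1 / 4 * QQ ww gg T = 2 * ((AA ww gg T + 1 / 4 * QQ ww gg T) / 2) := by ring
    change ENNReal.ofReal (AA ww gg T + 1 / 4 * QQ ww gg T) = _ at h1
    rw [h3, ENNReal.ofReal_mul (by norm_num), ENNReal.ofReal_ofNat] at h1
    exact ((ENNReal.mul_right_inj (by norm_num) (by norm_num)).1 h1).symm
  · intro ρ
    have := hd.w0 ρ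
    split_ifs
    · positivity
    · norm_num
  · exact (AA_summable hd T).add ((QQ_summable hd T).mul_left _)

end Pool.Agent.H474.MS
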