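import Pool.Agent.H474.MS.Nt2

set_option autoImplicit false

/-! # Project MS: the equivalences with `J_{-1}(T)` -/

namespace Pool.Agent.H474.MS

open Filter Topology MeasureTheory Set

lemma W_nonneg : 0 ≤ W := tsum_nonneg fun ρ => wt_nonneg ρ

/-- a linear bound for `J_{-1}(T)` and RH give the conditions on the zeros -/
theorem of_JJ (hRH : RiemannHypothesis) {C : ℝ} (hC : ∀ T : ℝ, 1 ≤ T → JJ T ≤ ENNReal.ofReal (C * T)) : ZC := by
  obtain ⟨C', hC'0, hC'⟩ : ∃ C' : ℝ, 0 ≤ C' ∧ ∀ T : ℝ, 1 ≤ T → 2 * JJ T ≤ ENNReal.ofReal (C' * T) := by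
    refine ⟨2 * max C 0, by positivity, fun T hT => ?_⟩
    have h1 : JJ T ≤ ENNReal.ofReal (max C 0 * T) :=
      (hC T hT).trans (ENNReal.ofReal_le_ofReal (mul_le_mul_of_nonneg_right (le_max_left _ _) (by linarith)))
    calc 2 * JJ T ≤ 2 * ENNReal.ofReal (max C 0 * T) := by gcongr
      _ = ENNReal.ofReal (2 * max C 0 * T) := by
        rw [mul_assoc, ENNReal.ofReal_mul (by norm_num : (0 : ℝ) ≤ 2), ENNReal.ofReal_ofNat]
  have hs : ∀ ρ ∈ ZZ, deriv riemannZeta ρ ≠ 0 := by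
    intro ρ hρ h0
    have h1 := hC' (max |ρ.im| 1) (le_max_right _ _)
    rw [← two_JJ] at h1
    have h2' := (ENNReal.le_tsum (f := fun z : ZZ => if gg z ≤ max |ρ.im| 1 then
      (ENNReal.ofReal (‖deriv riemannZeta z‖ ^ 2))⁻¹ else 0) ⟨ρ, hρ⟩)
    have h3 : (if gg (⟨ρ, hρ⟩ : ZZ) ≤ max |ρ.im| 1 then
      (ENNReal.ofReal (‖deriv riemannZeta ((⟨ρ, hρ⟩ : ZZ) : ℂ)‖ ^ 2))⁻¹ else 0) = ⊤ := by
      rw [if_pos (show gg (⟨ρ, hρ⟩ : ZZ) ≤ max |ρ.im| 1 from le_max_left _ _)]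
      show (ENNReal.ofReal (‖deriv riemannZeta ρ‖ ^ 2))⁻¹ = ⊤
      rw [h0]
      simp
    have h4 := h2'.trans h1
    simp only at h4
    rw [h3, top_le_iff] at h4
    exact ENNReal.ofReal_ne_top h4
  refine ⟨hRH, hs, ?_⟩
  have hst : ∀ ρ ∈ ZZ, ρ.re = 1 / 2 := fun ρ hρ => Pool.Agent.H313.ZC.rh_iff_strip.1 hRH ρ hρ
  have h5 := Pool.Agent.H977.MS.L0.t_L0 ZZ (fun ρ => (ENNReal.ofReal (‖deriv riemannZeta ρ‖ ^ 2))⁻¹) gg C' hC'0
    (fun T hT => by rw [two_JJ]; exact hC' T hT)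
  have hne := ne_top_of_le_ne_top ENNReal.ofReal_ne_top h5
  have h6 := ENNReal.summable_toReal hne
  refine Summable.of_nonneg_of_le (fun ρ => wt_nonneg _) (fun ρ => ?_) (h6.mul_right 4)
  have h7 : 0 < ‖deriv riemannZeta ρ‖ ^ 2 := by
    have := norm_pos_iff.2 (hs ρ ρ.2)
    positivity
  rw [← ENNReal.ofReal_inv_of_pos h7, ← ENNReal.ofReal_mul (by positivity), ENNReal.toReal_ofReal (by positivity)]
  have h3 : ‖(ρ : ℂ)‖ ^ 2 = gg ρ ^ 2 + 1 / 4 := by
    rw [← Complex.normSq_eq_norm_sq, Complex.normSq_apply, hst ρ ρ.2]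
    unfold gg
    rw [sq_abs]
    ring
  have h8 : wt ρ = (‖deriv riemannZeta ρ‖ ^ 2)⁻¹ * (1 / (gg ρ ^ 2 + 1 / 4)) := by
    unfold wt
    rw [norm_mul, mul_pow, h3]
    field_simp
  rw [h8, mul_assoc]
  refine mul_le_mul_of_nonneg_left ?_ (by positivity)
  have hm : 0 < max (gg ρ) 1 := lt_of_lt_of_le one_pos (le_max_right _ _)
  have hg0 : 0 ≤ gg ρ := abs_nonneg _
  rw [div_mul_eq_mul_div, div_le_div_iff₀ (by positivity) (by positivity)]
  rcases le_total (gg ρ) 1 with h | h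
  · rw [max_eq_right h]
    nlinarith [sq_nonneg (gg ρ)]
  · rw [max_eq_left h]
    nlinarith [sq_nonneg (gg ρ)]

lemma JJ_real (hz : ZC) (T : ℝ) : 0 ≤ (AA ww gg T + 1 / 4 * QQ ww gg T) / 2 := by
  have h1 := AA_nonneg hz.dat T
  have h2 := QQ_nonneg hz.dat T
  positivity

/-- `A(T) ≤ C T` in terms of `J` -/
lemma AA_le_iff (hz : ZC) : (∃ C : ℝ, ∀ T : ℝ, 1 ≤ T → AA ww gg T ≤ C * T) ↔
    ∃ C : ℝ, ∀ T : ℝ, 1 ≤ T → JJ T ≤ ENNReal.ofReal (C * T) := by
  constructor
  · rintro ⟨C, hC⟩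
    refine ⟨C + W, fun T hT => ?_⟩
    rw [JJ_eq hz]
    refine ENNReal.ofReal_le_ofReal ?_
    have h1 := hC T hT
    have h2 : QQ ww gg T ≤ W := QQ_le hz.dat T
    have h3 := W_nonneg
    have h4 := AA_nonneg hz.dat T
    nlinarith
  · rintro ⟨C, hC⟩
    refine ⟨2 * max C 0, fun T hT => ?_⟩
    have h1 := hC T hT
    have h1' : ENNReal.ofReal (C * T) ≤ ENNReal.ofReal (max C 0 * T) :=
      ENNReal.ofReal_le_ofReal (mul_le_mul_of_nonneg_right (le_max_left _ _) (by linarith))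
    rw [JJ_eq hz] at h1
    have h2 := (ENNReal.ofReal_le_ofReal_iff (by positivity)).1 (h1.trans h1')
    have h3 := QQ_nonneg hz.dat T
    nlinarith

lemma QQ_lim (hz : ZC) : Tendsto (fun T : ℝ => 1 / 4 * QQ ww gg T / T) atTop (𝓝 0) := by
  have h1 : Tendsto (fun T : ℝ => W / T) atTop (𝓝 0) := tendsto_const_nhds.div_atTop tendsto_id
  refine squeeze_zero' ?_ ?_ h1
  · filter_upwards [eventually_gt_atTop (0 : ℝ)] with T hT
    have := QQ_nonneg hz.dat T
    positivity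
  · filter_upwards [eventually_gt_atTop (0 : ℝ)] with T hT
    have h2 : QQ ww gg T ≤ W := QQ_le hz.dat T
    have h3 := QQ_nonneg hz.dat T
    gcongr
    linarith

lemma JJ_div (hz : ZC) {T : ℝ} (hT : 0 < T) :
    JJ T / ENNReal.ofReal T = ENNReal.ofReal ((AA ww gg T / T + 1 / 4 * QQ ww gg T / T) / 2) := by
  rw [JJ_eq hz, ← ENNReal.ofReal_div_of_pos hT]
  congr 1
  ring

/-- the asymptotic formula for `A(T)` in terms of `J` -/
lemma AA_lim_iff (hz : ZC) (a : ℝ) (ha : 0 ≤ a) : Tendsto (fun T => AA ww gg T / T) atTop (𝓝 (2 * a)) ↔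
    Tendsto (fun T => JJ T / ENNReal.ofReal T) atTop (𝓝 (ENNReal.ofReal a)) := by
  constructor
  · intro h
    have h1 : Tendsto (fun T => (AA ww gg T / T + 1 / 4 * QQ ww gg T / T) / 2) atTop (𝓝 ((2 * a + 0) / 2)) :=
      (h.add (QQ_lim hz)).div_const 2
    have h2 : (2 * a + 0) / 2 = a := by ring
    rw [h2] at h1
    refine ((ENNReal.continuous_ofReal.tendsto _).comp h1).congr' ?_
    filter_upwards [eventually_gt_atTop (0 : ℝ)] with T hT
    rw [JJ_div hz hT]
    rfl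
  · intro h
    have h1 : Tendsto (fun T => (AA ww gg T / T + 1 / 4 * QQ ww gg T / T) / 2) atTop (𝓝 a) := by
      have h2 := (ENNReal.tendsto_toReal (ENNReal.ofReal_ne_top (r := a))).comp h
      rw [ENNReal.toReal_ofReal ha] at h2
      refine h2.congr' ?_
      filter_upwards [eventually_gt_atTop (0 : ℝ)] with T hT
      show (JJ T / ENNReal.ofReal T).toReal = _
      rw [JJ_div hz hT, ENNReal.toReal_ofReal]
      have h3 := AA_nonneg hz.dat T
      have h4 := QQ_nonneg hz.dat T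
      positivity
    have h2 := (h1.const_mul 2).sub (QQ_lim hz)
    rw [sub_zero] at h2
    refine h2.congr fun T => ?_
    ring

lemma log_bound {δ : ℝ} (hδ : 0 < δ) (hδ1 : δ ≤ 1) : Real.log (1 + δ) ≤ δ ∧ δ ≤ 2 * Real.log (1 + δ) := by
  constructor
  · have := Real.log_le_sub_one_of_pos (show 0 < 1 + δ by linarith)
    linarith
  · have h1 := Real.add_one_le_exp (-Real.log (1 + δ))
    rw [Real.exp_neg, Real.exp_log (by linarith)] at h1
    have h2 : (1 + δ)⁻¹ ≤ 1 - δ / 2 := by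
      rw [inv_le_iff_one_le_mul₀ (by linarith)]
      nlinarith
    linarith

lemma VV_le (hz : ZC) {δ C : ℝ} (hδ : 0 < δ) (hδ1 : δ ≤ 1) (hC0 : 0 ≤ C) (hC : SS ww gg (Real.log (1 + δ)) ≤ C * Real.log (1 + δ)) :
    VV (Real.log (1 + δ)) ≤ (W + 2 * C) * δ := by
  obtain ⟨h1, h2⟩ := log_bound hδ hδ1
  have h3 : Real.exp (Real.log (1 + δ) / 2) ≤ 1 + δ := by
    have : Real.exp (Real.log (1 + δ) / 2) ≤ Real.exp (Real.log (1 + δ)) := Real.exp_le_exp.2 (by
      have := Real.log_nonneg (show 1 ≤ 1 + δ by linarith); linarith)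
    rwa [Real.exp_log (by linarith)] at this
  have h4 : 1 ≤ Real.exp (Real.log (1 + δ) / 2) := Real.one_le_exp (by
    have := Real.log_nonneg (show 1 ≤ 1 + δ by linarith); linarith)
  have h5 : (Real.exp (Real.log (1 + δ) / 2) - 1) ^ 2 ≤ δ := by nlinarith
  have h6 := SS_nonneg hz.dat (Real.log (1 + δ))
  have h7 : SS ww gg (Real.log (1 + δ)) ≤ C * δ := hC.trans (mul_le_mul_of_nonneg_left h1 hC0)
  unfold VV
  have h8 := W_nonneg
  have h9 : Real.exp (Real.log (1 + δ) / 2) * SS ww gg (Real.log (1 + δ)) ≤ 2 * (C * δ) := by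
    refine mul_le_mul (by linarith) h7 h6 (by norm_num)
  nlinarith [mul_le_mul_of_nonneg_right h5 h8]

theorem bdd_iff (h9 : S_L9) : (∃ C : ℝ, ∀ δ : ℝ, 0 < δ → δ ≤ 1 → vE δ ≤ ENNReal.ofReal C) ↔
    RiemannHypothesis ∧ ∃ C : ℝ, ∀ T : ℝ, 1 ≤ T → JJ T ≤ ENNReal.ofReal (C * T) := by
  have hpi := Real.pi_pos
  constructor
  · rintro ⟨C, hC⟩
    have hz : ZC := of_vE one_pos (ne_top_of_le_ne_top ENNReal.ofReal_ne_top (hC 1 one_pos le_rfl))
    have := hz.countable
    refine ⟨hz.1, (AA_le_iff hz).1 ?_⟩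
    obtain ⟨K, hK⟩ : ∃ K : ℝ, K = 6 / Real.pi ^ 2 := ⟨_, rfl⟩
    have hK0 : 0 < K := by rw [hK]; positivity
    obtain ⟨C1, hC1, hC10⟩ : ∃ C1 : ℝ, C1 = max C 0 * K * 2 ∧ 0 ≤ C1 := ⟨_, rfl, by positivity⟩
    have hl2 : 0 < Real.log 2 := Real.log_pos (by norm_num)
    refine Pool.Agent.H118.MS.L10.t_L10 ZZ ww gg hz.dat (C1 + 4 * W / Real.log 2) fun h h0 h1 => ?_
    have hW := W_nonneg
    rcases le_total h (Real.log 2) with h2 | h2
    · obtain ⟨δ, hδ⟩ : ∃ δ : ℝ, δ = Real.exp h - 1 := ⟨_, rfl⟩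
      have hδ0 : 0 < δ := by have := Real.add_one_le_exp h; linarith
      have hδ1 : δ ≤ 1 := by
        have : Real.exp h ≤ 2 := by
          rw [← Real.exp_log (show (0 : ℝ) < 2 by norm_num)]
          exact Real.exp_le_exp.2 h2
        linarith
      have hlog : Real.log (1 + δ) = h := by rw [hδ]; ring_nf; exact Real.log_exp h
      have h3 := (hC δ hδ0 hδ1).trans (ENNReal.ofReal_le_ofReal (le_max_left C 0))
      rw [vE_eq hz hδ0, ENNReal.ofReal_le_ofReal_iff (le_max_right _ _), hlog, ← hK, div_le_iff₀ (by positivity)] at h3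
      have h4 : SS ww gg h ≤ VV h := by
        unfold VV
        have e1 : 1 ≤ Real.exp (h / 2) := Real.one_le_exp (by positivity)
        have e2 := SS_nonneg hz.dat h
        have e3 : 0 ≤ (Real.exp (h / 2) - 1) ^ 2 * W := by positivity
        nlinarith
      have h5 : δ ≤ 2 * h := by
        have := (log_bound hδ0 hδ1).2
        rwa [hlog] at this
      have h6 : max C 0 * (K * δ) ≤ C1 * h := by
        rw [hC1]
        have : max C 0 * (K * δ) ≤ max C 0 * (K * (2 * h)) := by gcongr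
        calc _ ≤ _ := this
          _ = _ := by ring
      have h7 : 0 ≤ 4 * W / Real.log 2 * h := by positivity
      calc SS ww gg h ≤ VV h := h4
        _ ≤ max C 0 * (K * δ) := h3
        _ ≤ C1 * h := h6
        _ ≤ _ := by rw [add_mul]; linarith
    · have h3 : SS ww gg h ≤ 4 * W := SS_le hz.dat h
      have h4 : 4 * W ≤ 4 * W / Real.log 2 * h := by
        rw [div_mul_eq_mul_div, le_div_iff₀ hl2]
        exact mul_le_mul_of_nonneg_left h2 (by positivity)
      have h5 : 0 ≤ C1 * h := by positivity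
      calc _ ≤ _ := h3
        _ ≤ _ := h4
        _ ≤ _ := by rw [add_mul]; linarith
  · rintro ⟨hRH, C, hC⟩
    have hz : ZC := of_JJ hRH hC
    have := hz.countable
    obtain ⟨C1, hC1⟩ := (AA_le_iff hz).2 ⟨C, hC⟩
    obtain ⟨C2, hC2⟩ := h9 ZZ ww gg hz.dat C1 hC1
    refine ⟨(W + 2 * max C2 0) / (6 / Real.pi ^ 2), fun δ hδ hδ1 => ?_⟩
    rw [vE_eq hz hδ]
    refine ENNReal.ofReal_le_ofReal ?_
    have hl := log_bound hδ hδ1
    have hl0 : 0 < Real.log (1 + δ) := Real.log_pos (by linarith)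
    have h1 := VV_le hz hδ hδ1 (le_max_right C2 0) ((hC2 _ hl0 (by linarith)).trans
      (mul_le_mul_of_nonneg_right (le_max_left _ _) hl0.le))
    rw [div_le_div_iff₀ (kap_pos hδ) (by positivity)]
    calc VV (Real.log (1 + δ)) * (6 / Real.pi ^ 2) ≤ (W + 2 * max C2 0) * δ * (6 / Real.pi ^ 2) := by gcongr
      _ = _ := by ring

/-- `η ↦ e^η - 1` and `δ ↦ log (1+δ)` near `0+` -/
lemma tendsto_log1 : Tendsto (fun δ : ℝ => Real.log (1 + δ)) (𝓝[>] 0) (𝓝[>] 0) := by
  refine tendsto_nhdsWithin_iff.2 ⟨?_, ?_⟩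
  · have h1 : ContinuousAt (fun δ : ℝ => Real.log (1 + δ)) 0 := by
      refine ContinuousAt.log (by fun_prop) (by norm_num)
    have h2 := h1.tendsto
    simp only [add_zero, Real.log_one] at h2
    exact h2.mono_left nhdsWithin_le_nhds
  · filter_upwards [self_mem_nhdsWithin] with δ hδ
    exact Real.log_pos (by have : 0 < δ := hδ; linarith)

lemma tendsto_exp1 : Tendsto (fun η : ℝ => Real.exp η - 1) (𝓝[>] 0) (𝓝[>] 0) := by
  refine tendsto_nhdsWithin_iff.2 ⟨?_, ?_⟩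
  · have h1 : Continuous (fun η : ℝ => Real.exp η - 1) := by fun_prop
    have h2 := h1.tendsto 0
    simp only [Real.exp_zero, sub_self] at h2
    exact h2.mono_left nhdsWithin_le_nhds
  · filter_upwards [self_mem_nhdsWithin] with η hη
    have h1 : 0 < η := hη
    have := Real.add_one_lt_exp h1.ne'
    show 0 < Real.exp η - 1
    linarith

lemma exp_ratio : Tendsto (fun η : ℝ => (Real.exp η - 1) / η) (𝓝[>] 0) (𝓝 1) := by
  have h1 := (Real.hasDerivAt_exp 0).tendsto_slope_zero_right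
  simp only [zero_add, Real.exp_zero, smul_eq_mul] at h1
  refine h1.congr fun η => ?_
  rw [div_eq_inv_mul]

lemma sq_ratio : Tendsto (fun η : ℝ => (Real.exp (η / 2) - 1) ^ 2 * W / η) (𝓝[>] 0) (𝓝 0) := by
  have h1 : Tendsto (fun η : ℝ => η / 2) (𝓝[>] 0) (𝓝[>] 0) := by
    refine tendsto_nhdsWithin_iff.2 ⟨?_, ?_⟩
    · have h2 : Continuous (fun η : ℝ => η / 2) := by fun_prop
      have h3 := h2.tendsto 0
      rw [zero_div] at h3
      exact h3.mono_left nhdsWithin_le_nhds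
    · filter_upwards [self_mem_nhdsWithin] with η hη
      have : 0 < η := hη
      show 0 < η / 2
      positivity
  have h2 := (exp_ratio.comp h1)
  have h3 : Tendsto (fun η : ℝ => Real.exp (η / 2) - 1) (𝓝[>] 0) (𝓝 0) :=
    (tendsto_exp1.mono_right nhdsWithin_le_nhds).comp h1
  have h4 := ((h2.mul h3).mul_const (W / 2))
  rw [mul_zero, zero_mul] at h4
  refine h4.congr' ?_
  filter_upwards [self_mem_nhdsWithin] with η hη
  have : (0 : ℝ) < η := hη
  simp only [Function.comp_apply]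
  field_simp

lemma exp_half : Tendsto (fun η : ℝ => Real.exp (η / 2)) (𝓝[>] 0) (𝓝 1) := by
  have h1 : Continuous (fun η : ℝ => Real.exp (η / 2)) := by fun_prop
  have h2 := h1.tendsto 0
  simp only [zero_div, Real.exp_zero] at h2
  exact h2.mono_left nhdsWithin_le_nhds

lemma VV_iff_SS (β : ℝ) : Tendsto (fun η => VV η / η) (𝓝[>] 0) (𝓝 β) ↔ Tendsto (fun η => SS ww gg η / η) (𝓝[>] 0) (𝓝 β) := by
  constructor
  · intro h
    have h1 := (h.sub sq_ratio).div exp_half one_ne_zero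
    rw [sub_zero, div_one] at h1
    refine h1.congr fun η => ?_
    simp only [Pi.div_apply]
    unfold VV
    have := (Real.exp_pos (η / 2)).ne'
    field_simp
    ring
  · intro h
    have h1 := sq_ratio.add (exp_half.mul h)
    rw [zero_add, one_mul] at h1
    refine h1.congr fun η => ?_
    unfold VV
    ring

lemma VV_iff (a : ℝ) : Tendsto (fun δ => VV (Real.log (1 + δ)) / (6 / Real.pi ^ 2 * δ)) (𝓝[>] 0) (𝓝 a) ↔
    Tendsto (fun η => VV η / η) (𝓝[>] 0) (𝓝 (6 / Real.pi ^ 2 * a)) := by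
  have hpi := Real.pi_pos
  constructor
  · intro h
    have h1 := ((h.comp tendsto_exp1).mul exp_ratio).const_mul (6 / Real.pi ^ 2)
    rw [mul_one] at h1
    refine h1.congr' ?_
    filter_upwards [self_mem_nhdsWithin] with η hη
    have h0 : (0 : ℝ) < η := hη
    have h2 : 0 < Real.exp η - 1 := by
      have := Real.add_one_lt_exp h0.ne'
      linarith
    simp only [Function.comp_apply]
    have h3 : Real.log (1 + (Real.exp η - 1)) = η := by ring_nf; exact Real.log_exp η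
    rw [h3]
    field_simp
  · intro h
    have e2 : Tendsto (fun δ : ℝ => Real.log (1 + δ) / δ) (𝓝[>] 0) (𝓝 1) := by
      have h4 := (exp_ratio.comp tendsto_log1).inv₀ one_ne_zero
      rw [inv_one] at h4
      refine h4.congr' ?_
      filter_upwards [self_mem_nhdsWithin] with δ hδ
      have h0 : (0 : ℝ) < δ := hδ
      simp only [Function.comp_apply]
      rw [Real.exp_log (by linarith), inv_div]
      congr 1
      ring
    have h1 := ((h.comp tendsto_log1).mul e2).const_mul (Real.pi ^ 2 / 6)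
    have e3 : Real.pi ^ 2 / 6 * (6 / Real.pi ^ 2 * a * 1) = a := by field_simp
    rw [e3] at h1
    refine h1.congr' ?_
    filter_upwards [self_mem_nhdsWithin] with δ hδ
    have h0 : (0 : ℝ) < δ := hδ
    have h2 : 0 < Real.log (1 + δ) := Real.log_pos (by linarith)
    simp only [Function.comp_apply]
    field_simp

/-- the variances tend to `a` iff `J_{-1}(T) ~ (3 a/π³) T`, under the conditions on the zeros -/
theorem lim_iff_ZC (hz : ZC) (a : ℝ) (ha : 0 ≤ a) :
    Tendsto (fun δ => VV (Real.log (1 + δ)) / (6 / Real.pi ^ 2 * δ)) (𝓝[>] 0) (𝓝 a) ↔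
      Tendsto (fun T => JJ T / ENNReal.ofReal T) atTop (𝓝 (ENNReal.ofReal (3 / Real.pi ^ 3 * a))) := by
  have hpi := Real.pi_pos
  have := hz.countable
  rw [VV_iff, VV_iff_SS, ← AA_lim_iff hz _ (by positivity), AA_iff_SS hz.dat]
  have e1 : Real.pi * (2 * (3 / Real.pi ^ 3 * a)) = 6 / Real.pi ^ 2 * a := by
    field_simp
    ring
  rw [e1]

lemma VV_nonneg (hz : ZC) (η : ℝ) : 0 ≤ VV η := by
  have h1 := SS_nonneg hz.dat η
  have h2 := W_nonneg
  unfold VV
  positivity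

theorem lim_iff (a : ℝ) (ha : 0 ≤ a) : Tendsto vE (𝓝[>] 0) (𝓝 (ENNReal.ofReal a)) ↔
    RiemannHypothesis ∧ Tendsto (fun T => JJ T / ENNReal.ofReal T) atTop (𝓝 (ENNReal.ofReal (3 / Real.pi ^ 3 * a))) := by
  constructor
  · intro h
    have h1 : ∀ᶠ δ in 𝓝[>] (0 : ℝ), vE δ < ⊤ := h.eventually (gt_mem_nhds ENNReal.ofReal_lt_top)
    obtain ⟨δ, hδ, hδ0⟩ := (h1.and self_mem_nhdsWithin).exists
    have hz : ZC := of_vE hδ0 hδ.ne
    refine ⟨hz.1, (lim_iff_ZC hz a ha).1 ?_⟩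
    have h2 := (ENNReal.tendsto_toReal (ENNReal.ofReal_ne_top (r := a))).comp h
    rw [ENNReal.toReal_ofReal ha] at h2
    refine h2.congr' ?_
    filter_upwards [self_mem_nhdsWithin] with δ hδ
    show (vE δ).toReal = _
    rw [vE_eq hz hδ, ENNReal.toReal_ofReal (div_nonneg (VV_nonneg hz _) (kap_pos hδ).le)]
  · rintro ⟨hRH, h⟩
    have hz : ZC := by
      obtain ⟨c, hc⟩ : ∃ c : ℝ, c = 3 / Real.pi ^ 3 * a := ⟨_, rfl⟩
      have hc0 : 0 ≤ c := by rw [hc]; have := Real.pi_pos; positivity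
      rw [← hc] at h
      have h1 : ∀ᶠ T in (atTop : Filter ℝ), JJ T / ENNReal.ofReal T < ENNReal.ofReal (c + 1) :=
        h.eventually (gt_mem_nhds ((ENNReal.ofReal_lt_ofReal_iff (by linarith)).2 (by linarith)))
      obtain ⟨T0, hT0⟩ := ((h1.and (eventually_ge_atTop (1 : ℝ)))).exists_forall_of_atTop
      have hT01 : 1 ≤ T0 := (hT0 T0 le_rfl).2
      have h2 : ∀ T : ℝ, T0 ≤ T → JJ T ≤ ENNReal.ofReal ((c + 1) * T) := by
        intro T hT
        have hT1 : 0 < T := by linarith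
        have h3 := (hT0 T hT).1.le
        rw [ENNReal.div_le_iff (by simpa using hT1) ENNReal.ofReal_ne_top, ← ENNReal.ofReal_mul (by linarith)] at h3
        exact h3
      have hmono : ∀ S T : ℝ, S ≤ T → JJ S ≤ JJ T := by
        intro S T hST
        refine ENNReal.tsum_le_tsum fun ρ => ?_
        split_ifs with h4 h5
        · exact le_rfl
        · exact absurd ⟨h4.1, h4.2.trans hST⟩ h5
        · exact zero_le
        · exact le_rfl
      refine of_JJ hRH (C := (c + 1) * T0) fun T hT => ?_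
      rcases le_total T0 T with h3 | h3
      · refine (h2 T h3).trans (ENNReal.ofReal_le_ofReal ?_)
        have : (c + 1) * T ≤ (c + 1) * T * T0 := le_mul_of_one_le_right (by positivity) hT01
        calc _ ≤ _ := this
          _ = _ := by ring
      · refine (hmono T T0 h3).trans ((h2 T0 le_rfl).trans (ENNReal.ofReal_le_ofReal ?_))
        exact le_mul_of_one_le_right (by positivity) hT
    have h1 := (lim_iff_ZC hz a ha).2 h
    refine ((ENNReal.continuous_ofReal.tendsto _).comp h1).congr' ?_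
    filter_upwards [self_mem_nhdsWithin] with δ hδ
    show ENNReal.ofReal _ = vE δ
    rw [vE_eq hz hδ]

end Pool.Agent.H474.MS
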