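import Pool.Agent.H474.MS.Stm

/-!
# Project MS (helper474), second part: the law of the increments under linear independence
-/

set_option autoImplicit false

namespace Pool.Agent.H474.MS

open Filter Topology MeasureTheory Set

/-- the Bessel function `J_0`, as the characteristic function of `cos θ`, `θ` uniform -/
noncomputable def J0 (x : ℝ) : ℝ := (∫ θ in (0 : ℝ)..(2 * Real.pi), Real.cos (x * Real.cos θ)) / (2 * Real.pi)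

/-- a real trigonometric sum with amplitudes `2 a_i`, frequencies `γ_i`, phases `θ_i` -/
noncomputable def TS {n : ℕ} (γ a θ : Fin n → ℝ) (v : ℝ) : ℝ := ∑ i, 2 * a i * Real.cos (γ i * v + θ i)

/-- `K1` (Kronecker-Weyl): linearly independent frequencies, continuous `G`, `2π`-periodic in each variable.
Proof: Stone-Weierstrass on the torus (or Fejer / `span_fourier` in each variable): for a character `x ↦ e^{i ∑ n_j x_j}` with `n ≠ 0` the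
frequency `∑ n_j γ_j` is `≠ 0`, so the mean over `[0,V]` of `e^{i v ∑ n_j γ_j}` tends to `0`, which is the mean over the torus.
Real-valued `G`: take real parts. (The library has several versions of this: e.g. the modules `.../KW.lean`.) -/
def S_K1 : Prop := ∀ (n : ℕ) (γ : Fin n → ℝ), LinearIndependent ℚ γ → ∀ G : (Fin n → ℝ) → ℝ, Continuous G →
  (∀ (x : Fin n → ℝ) (i : Fin n), G (Function.update x i (x i + 2 * Real.pi)) = G x) →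
  Tendsto (mean fun v => G (fun i => γ i * v)) atTop
    (𝓝 ((∫ x in Set.pi Set.univ (fun _ : Fin n => Ioc (0 : ℝ) (2 * Real.pi)), G x) / (2 * Real.pi) ^ n))

/-- `K2`: the characteristic function of the limit law of a trigonometric sum (uses `K1`).
Proof: `K1` for `G(x) = cos (t ∑ 2 a_i cos(x_i + θ_i))` and the sine; `cos + i sin = ∏ e^{i t 2 a_i cos(x_i+θ_i)}`, the integral over the
torus is the product of the one-dimensional integrals (`integral_fin_nat_prod_eq_prod` / `MeasureTheory.integral_fintype_prod_eq_prod`), each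
equal to `J0 (2 a_i t)` (shift by `θ_i`: periodicity; the integral of `sin (x cos θ)` vanishes by `θ ↦ θ + π`). -/
def S_K2 : Prop := ∀ (n : ℕ) (γ a θ : Fin n → ℝ), LinearIndependent ℚ γ → ∀ t : ℝ,
  Tendsto (mean fun v => Real.cos (t * TS γ a θ v)) atTop (𝓝 (∏ i, J0 (2 * a i * t))) ∧
  Tendsto (mean fun v => Real.sin (t * TS γ a θ v)) atTop (𝓝 0)

/-- `K3`: the fourth moment (uses `K1`). Proof: `K1` for `G(x) = (∑ 2 a_i cos (x_i + θ_i))^4`; for independent uniform angles, by induction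
on `n` with `S` the sum of the first `n` terms and `Y` the last one: `E(S+Y)^4 = E S^4 + 6 E S^2 E Y^2 + E Y^4` (odd moments of `Y` vanish),
`E Y^2 = 2 a²`, `E Y^4 = 6 a^4 ≤ 3 (E Y²)²`, `E S² = 2 ∑ a_i²`. So `E (S+Y)^4 ≤ 3 (E S² + E Y²)²`. -/
def S_K3 : Prop := ∀ (n : ℕ) (γ a θ : Fin n → ℝ), LinearIndependent ℚ γ →
  ∃ L : ℝ, L ≤ 3 * (2 * ∑ i, a i ^ 2) ^ 2 ∧ Tendsto (mean fun v => TS γ a θ v ^ 4) atTop (𝓝 L)

/-- `K4`: `|∏ J0(2 a_i t) - exp(-t² ∑ a_i²)| ≤ C t⁴ ∑ a_i⁴`.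
Proof: `|J0 x| ≤ 1`, `|J0 x - e^{-x²/4}| ≤ C₀ x⁴` for all `x` (from `|cos y - 1 + y²/2| ≤ y⁴/24`, the mean of `cos²` is `1/2`, and
`|e^{-z} - 1 + z| ≤ z²/2` for `z ≥ 0`), and `|∏ x_i - ∏ y_i| ≤ ∑ |x_i - y_i|` for numbers of absolute value at most `1`. -/
def S_K4 : Prop := ∃ C : ℝ, 0 ≤ C ∧ ∀ (n : ℕ) (a : Fin n → ℝ) (t : ℝ),
  |(∏ i, J0 (2 * a i * t)) - Real.exp (-(t ^ 2 * ∑ i, a i ^ 2))| ≤ C * t ^ 4 * ∑ i, a i ^ 4

/-- `f` is a mean-square limit of trigonometric sums with linearly independent frequencies; `v` is its mean square, `m` bounds the `a_i²` -/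
structure Good (f : ℝ → ℝ) (v m : ℝ) : Prop where
  meas : Measurable f
  bdd : ∀ V : ℝ, ∃ B : ℝ, ∀ u ∈ Icc 0 V, |f u| ≤ B
  m0 : 0 ≤ m
  approx : ∀ ε : ℝ, 0 < ε → ∃ (n : ℕ) (γ a θ : Fin n → ℝ), LinearIndependent ℚ γ ∧ (∀ i, a i ^ 2 ≤ m) ∧
    |2 * ∑ i, a i ^ 2 - v| ≤ ε ∧ ∀ᶠ V : ℝ in atTop, mean (fun u => (f u - TS γ a θ u) ^ 2) V ≤ ε

/-- `K5`: the characteristic function and the fourth moment of the law of a `Good` function (uses `K2`, `K3`, `K4`).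
Proof: (1) `|cos(t x) - cos(t y)| ≤ |t| |x - y|`, so (Cauchy-Schwarz) the means of `cos (t f)` and `cos (t TS)` differ by at most
`|t| √ε` for large `V`; same for `sin`. In the limit `V → ∞`: `|∫ cos(t x) dμ - ∏ J0(2 a_i t)| ≤ |t| √ε`, `|∫ sin(t x) dμ| ≤ |t| √ε`; by
`K4`, `∑ a_i⁴ ≤ m ∑ a_i² ≤ m (v+ε)/2`, and `2 ∑ a_i² → v`; let `ε → 0`.
(2) for `K > 0` the function `φ(x) = min(x⁴, K)` is bounded and Lipschitz, so `∫ φ dμ = lim_V mean φ(f) ≤ liminf_ε lim_V mean φ(TS)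
≤ liminf 3 (2 ∑ a_i²)² = 3 v²`; let `K → ∞` (monotone convergence / `ENNReal` Fatou). -/
def S_K5 : Prop := ∃ C : ℝ, 0 ≤ C ∧ ∀ (f : ℝ → ℝ) (v m : ℝ), Good f v m → ∀ μ : ProbabilityMeasure ℝ,
  (∀ φ : ℝ → ℝ, Continuous φ → (∃ B : ℝ, ∀ x, |φ x| ≤ B) →
    Tendsto (mean fun u => φ (f u)) atTop (𝓝 (∫ x, φ x ∂(μ : Measure ℝ)))) →
  (∀ t : ℝ, ‖charFun (μ : Measure ℝ) t - Complex.exp (((-(v * t ^ 2 / 2) : ℝ) : ℂ))‖ ≤ C * t ^ 4 * m * v) ∧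
  ∫⁻ x, ENNReal.ofReal (x ^ 4) ∂(μ : Measure ℝ) ≤ ENNReal.ofReal (3 * v ^ 2)

/-- the standard normal law -/
noncomputable def gaussN : ProbabilityMeasure ℝ := ⟨ProbabilityTheory.gaussianReal 0 1, inferInstance⟩

/-- `K6a`: convergence to the normal law. Proof: `ProbabilityMeasure.tendsto_iff_tendsto_charFun` (Levy's theorem in Mathlib,
`Mathlib/MeasureTheory/Measure/LevyConvergence.lean`; see its use in `Mathlib/Probability/CentralLimitTheorem.lean`) and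
`charFun_gaussianReal`. If Levy's theorem is there only for sequences, use `tendsto_of_seq_tendsto` along `𝓝[>] 0`. -/
def S_K6a : Prop := ∀ (μ : ℝ → ProbabilityMeasure ℝ) (v m : ℝ → ℝ) (C : ℝ),
  (∀ δ : ℝ, 0 < δ → ∀ t : ℝ,
    ‖charFun (μ δ : Measure ℝ) t - Complex.exp (((-(v δ * t ^ 2 / 2) : ℝ) : ℂ))‖ ≤ C * t ^ 4 * m δ * v δ) →
  Tendsto v (𝓝[>] 0) (𝓝 1) → Tendsto m (𝓝[>] 0) (𝓝 0) → Tendsto μ (𝓝[>] 0) (𝓝 gaussN)

/-- `K6b`: the variances converge. Proof: `φ_K(x) = min(x², K)` is bounded and continuous, so `∫ φ_K dμ_δ → ∫ φ_K dN ≤ 1`, and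
`∫ φ_K dN → 1` as `K → ∞`. (1) `liminf v ≥ ∫ φ_K dN`. (2) `v = ∫ x² ≤ ∫ φ_K + ∫ x⁴/K ≤ ∫ φ_K dμ_δ + 3 v²/K`, as `x² ≤ min(x²,K) + x⁴/K`.
(3) `v` stays bounded: if `v = v(δ) > 300`, put `K = 6 v`... i.e. Paley-Zygmund: `∫ min(x², K') dμ` for `K' = v/2`: as
`x² ≤ 1[x² < v/2] v/2 + x² 1[x² ≥ v/2]` and Cauchy-Schwarz, `v/2 ≤ (∫ x⁴)^{1/2} μ(x² ≥ v/2)^{1/2} ≤ √3 v μ(x² ≥ v/2)^{1/2}`, so
`μ(x² ≥ v/2) ≥ 1/12`; with `v/2 ≥ 100`: `∫ min(x²,100) dμ_δ ≥ 100/12 > 8`, impossible for small `δ`, since it tends to something `≤ 1`.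
So `v ≤ 200` for small `δ` and (2) gives `limsup v ≤ 1 + 3·200²/K` for all `K`. -/
def S_K6b : Prop := ∀ (μ : ℝ → ProbabilityMeasure ℝ) (v : ℝ → ℝ),
  (∀ δ : ℝ, 0 < δ → Integrable (fun x : ℝ => x ^ 2) (μ δ : Measure ℝ) ∧ ∫ x, x ^ 2 ∂(μ δ : Measure ℝ) = v δ ∧
    ∫⁻ x, ENNReal.ofReal (x ^ 4) ∂(μ δ : Measure ℝ) ≤ ENNReal.ofReal (3 * v δ ^ 2)) →
  Tendsto μ (𝓝[>] 0) (𝓝 gaussN) → Tendsto v (𝓝[>] 0) (𝓝 1)

/-- `K7`: no single frequency dominates. Proof: `A(T)/T → α` gives for every `ε > 0` a `T₀` with `a_i := w_i g_i² ≤ ε g_i` whenever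
`g_i ≥ T₀` (`a_i ≤ A(g_i) - A(s)` for all `s < g_i`, take `s = (1-η) g_i`). If `g_i h ≥ 2`: `w_i min(4, g_i²h²) ≤ 4 w_i = 4 a_i/g_i² ≤ 4 ε/g_i
≤ 2 ε h` (if `g_i ≥ T₀`, which holds for small `h`). If `g_i h < 2` and `g_i ≥ T₀`: `w_i g_i² h² = a_i h² ≤ ε g_i h² ≤ 2 ε h`. If `g_i < T₀`:
`w_i g_i² h² ≤ (∑ w) T₀² h² ≤ ε h` for small `h`. -/
def S_K7 : Prop := ∀ (ι : Type) [Countable ι] (w g : ι → ℝ), Dat w g → ∀ α : ℝ,
  Tendsto (fun T => AA w g T / T) atTop (𝓝 α) →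
  ∀ ε : ℝ, 0 < ε → ∀ᶠ h : ℝ in 𝓝[>] 0, ∀ i, w i * min 4 (g i ^ 2 * h ^ 2) ≤ ε * h

/-- `K8`: the increments `c (e^{h/2} f(v+h) - f(v))` of a function with Fourier coefficients `r_ρ` at the points `ρ ∈ Z` (the zeros) are
`Good`. Proof: `Z` is countable up to zero coefficients; given `ε`, take a finite `S ⊂ Z`, closed under conjugation, with small tail
`∑_{ρ ∉ S} |r_ρ|²`. The increment of `∑_{ρ∈S} r_ρ e^{(ρ-1/2)v}` is `∑_{ρ∈S} c (e^{hρ}-1) r_ρ e^{(ρ-1/2)v}`, which is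
`∑_{ρ∈S, Im ρ > 0} 2 |d_ρ| cos (Im ρ · v + arg d_ρ)`, `d_ρ = c (e^{hρ}-1) r_ρ` (`(ρ-1/2) v = i Im ρ v`). The mean square of the error is at
most `2 c² (e^h mean|..|²(v+h) + mean |..|²)`, `mean |.|²(v+h)` over `[0,V]` is at most `2` times the mean over `[0,V+h]`.
`|e^{hρ}-1| ≤ e^{h/2}+1`. Enumerate `{ρ ∈ S, Im ρ > 0}` by `Fin n` (`Finset.equivFin`). -/
def S_K8 : Prop := ∀ (f : ℝ → ℝ), Measurable f → (∀ V : ℝ, ∃ B : ℝ, ∀ u ∈ Icc 0 V, |f u| ≤ B) →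
  ∀ (Z : Set ℂ), (∀ ρ ∈ Z, ρ.re = 1 / 2) → (∀ ρ ∈ Z, (starRingEnd ℂ) ρ ∈ Z) → (∀ ρ ∈ Z, ρ.im ≠ 0) →
  ∀ (r : ℂ → ℂ), (∀ ρ ∈ Z, r ((starRingEnd ℂ) ρ) = (starRingEnd ℂ) (r ρ)) → Summable (fun ρ : Z => ‖r ρ‖ ^ 2) →
  (∀ S : Finset ℂ, (∀ ρ ∈ S, ρ ∈ Z) →
    Tendsto (mean fun v => ‖((f v : ℝ) : ℂ) - ∑ ρ ∈ S, r ρ * Complex.exp ((ρ - 1 / 2) * v)‖ ^ 2) atTop
      (𝓝 (∑' ρ : Z, ‖r ρ‖ ^ 2 - ∑ ρ ∈ S, ‖r ρ‖ ^ 2))) →
  LinearIndependent ℚ (fun ρ : {ρ : ℂ // ρ ∈ Z ∧ 0 < ρ.im} => (ρ : ℂ).im) →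
  ∀ h c m : ℝ, 0 ≤ h → 0 ≤ m → (∀ ρ ∈ Z, ‖(c : ℂ) * (Complex.exp (h * ρ) - 1) * r ρ‖ ^ 2 ≤ m) →
  Good (fun v => c * (Real.exp (h / 2) * f (v + h) - f v)) (∑' ρ : Z, ‖(c : ℂ) * (Complex.exp (h * ρ) - 1) * r ρ‖ ^ 2) m

end Pool.Agent.H474.MS
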