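import Pool.Agent.H313.ZC.AP2

/-!
# Project MS (helper474), third part: increments of Besicovitch almost periodic functions
-/

set_option autoImplicit false

namespace Pool.Agent.H474.MS

open Filter Topology MeasureTheory Set

/-- `B2`: if `f` is `B²` almost periodic then so are the functions `c (e^{h/2} f(v+h) - f(v))`.
Proof: if `f ≈ ∑ a_l e^{ilv}` then use the coefficients `c a_l (e^{h/2} e^{ilh} - 1)`; the error is at most
`2 c² (e^h mn|..|²(v+h) + mn|..|²)` (`Pool.Agent.H313.ZC.mn_shift`, `LB.shift` in `Pool/Agent/H313/ZC/AP2.lean`). -/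
def S_B2 : Prop := ∀ f : ℝ → ℝ, Pool.Agent.TH223.AP.B2 f → Pool.Agent.TH223.AP.LB f → ∀ h c : ℝ, 0 ≤ h →
  Pool.Agent.TH223.AP.B2 (fun v => c * (Real.exp (h / 2) * f (v + h) - f v)) ∧
    Pool.Agent.TH223.AP.LB (fun v => c * (Real.exp (h / 2) * f (v + h) - f v))

end Pool.Agent.H474.MS
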