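import Pool.Agent.H474.MS.Nt3
import Pool.Agent.H474.MS.Stm3
import Pool.Agent.H474.MS.Stm4
import Pool.Agent.H276.MS.K2
import Pool.Agent.H351.MS.K5
import Pool.Agent.H345.MS.K6a
import Pool.Agent.H93.MS.K7
import Pool.Agent.H383.MS.K8
import Pool.Agent.H903.MS.B2
import Pool.Agent.H663.MS.K1
import Pool.Agent.H474.MS.P.K3
import Pool.Agent.H474.MS.P.K4
import Pool.Agent.H474.MS.P.K6b

set_option autoImplicit false

/-! # Project MS: the limiting laws -/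

namespace Pool.Agent.H474.MS

open Filter Topology MeasureTheory Set
open Pool.Agent.Results.MP_323ce2_nt

/-- the normalised increments -/
noncomputable def gd (δ v : ℝ) : ℝ :=
  1 / √(6 / Real.pi ^ 2 * δ) * (Real.exp (Real.log (1 + δ) / 2) * ff (v + Real.log (1 + δ)) - ff v)

/-- the variance -/
noncomputable def vR (δ : ℝ) : ℝ := VV (Real.log (1 + δ)) / (6 / Real.pi ^ 2 * δ)

lemma gd_lim (hz : ZC) {δ : ℝ} (hδ : 0 < δ) : Tendsto (mean fun v => gd δ v ^ 2) atTop (𝓝 (vR δ)) := by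
  have hη0 : 0 < Real.log (1 + δ) := Real.log_pos (by linarith)
  have h1 := (inc_lim hz hη0.le).div_const (6 / Real.pi ^ 2 * δ)
  refine h1.congr fun V => ?_
  unfold mean
  have e1 : ∀ v : ℝ, gd δ v ^ 2 =
      1 / (6 / Real.pi ^ 2 * δ) * (Real.exp (Real.log (1 + δ) / 2) * ff (v + Real.log (1 + δ)) - ff v) ^ 2 := by
    intro v
    unfold gd
    rw [mul_pow, div_pow, Real.sq_sqrt (kap_pos hδ).le, one_pow]
  simp_rw [e1]
  rw [intervalIntegral.integral_const_mul]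
  ring

/-- existence of the limit law, with quadratic test functions -/
theorem law_exists (hz : ZC) {δ : ℝ} (hδ : 0 < δ) : ∃ μ : ProbabilityMeasure ℝ, ∀ (φ : ℝ → ℝ) (C : ℝ), Continuous φ →
    (∀ t, |φ t| ≤ C * (1 + t ^ 2)) → Integrable φ (μ : Measure ℝ) ∧
      Tendsto (mean fun v => φ (gd δ v)) atTop (𝓝 (∫ t, φ t ∂(μ : Measure ℝ))) := by
  have hη0 : 0 < Real.log (1 + δ) := Real.log_pos (by linarith)
  obtain ⟨h1, h2⟩ := ZeroSumLimit.cond_iff.1 hz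
  have hB := Pool.Agent.H903.MS.B2.t_B2 ff (Pool.Agent.H313.ZC.ft_B2 h1 h2) Pool.Agent.TH223.AP.ft_LB
    (Real.log (1 + δ)) (1 / √(6 / Real.pi ^ 2 * δ)) hη0.le
  obtain ⟨μ, hμ⟩ := Pool.Agent.TH223.AP.exists_law hB.1 hB.2
  exact ⟨μ, fun φ C hφ hC => Pool.Agent.TH223.AP.limit_quad hB.1 hμ hφ hC⟩

/-- `1/(ρ ζ'(ρ))` -/
noncomputable def rr (ρ : ℂ) : ℂ := 1 / (ρ * deriv riemannZeta ρ)

lemma rr_sq (ρ : ℂ) : ‖rr ρ‖ ^ 2 = wt ρ := by
  unfold rr wt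
  rw [norm_div, norm_one, div_pow, one_pow]

/-- `|c (e^{ηρ} - 1) r_ρ|²` -/
noncomputable def qq (δ : ℝ) (ρ : ℂ) : ℝ :=
  ‖((1 / √(6 / Real.pi ^ 2 * δ) : ℝ) : ℂ) * (Complex.exp ((Real.log (1 + δ) : ℂ) * ρ) - 1) * rr ρ‖ ^ 2

lemma qq_eq (hz : ZC) {δ : ℝ} (hδ : 0 < δ) (ρ : ZZ) : qq δ ρ =
    (ww ρ * ((Real.exp (Real.log (1 + δ) / 2) - 1) ^ 2) + Real.exp (Real.log (1 + δ) / 2) *
      (ww ρ * (2 * (1 - Real.cos (gg ρ * Real.log (1 + δ)))))) / (6 / Real.pi ^ 2 * δ) := by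
  unfold qq
  rw [norm_mul, norm_mul, mul_pow, mul_pow, rr_sq, ← cpow_eq hδ, norm_inc (hz.strip ρ.2).1 hδ, Complex.norm_real,
    Real.norm_eq_abs, sq_abs, div_pow, one_pow, Real.sq_sqrt (kap_pos hδ).le]
  show _ * _ * ww ρ = _
  unfold gg
  ring

lemma qq_summable (hz : ZC) {δ : ℝ} (hδ : 0 < δ) : Summable fun ρ : ZZ => qq δ ρ := by
  simp_rw [qq_eq hz hδ]
  exact ((hz.dat.ws.mul_right _).add ((SS_summable hz.dat _).mul_left _)).div_const _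

lemma qq_tsum (hz : ZC) {δ : ℝ} (hδ : 0 < δ) : ∑' ρ : ZZ, qq δ ρ = vR δ := by
  simp_rw [qq_eq hz hδ]
  rw [tsum_div_const, Summable.tsum_add (hz.dat.ws.mul_right _) ((SS_summable hz.dat _).mul_left _), tsum_mul_right,
    tsum_mul_left]
  unfold vR VV W SS
  ring

lemma qq_nonneg (δ : ℝ) (ρ : ℂ) : 0 ≤ qq δ ρ := by unfold qq; positivity

/-- the largest of the squared amplitudes -/
noncomputable def mm (δ : ℝ) : ℝ := ⨆ ρ : ZZ, qq δ ρ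

lemma qq_le (hz : ZC) {δ : ℝ} (hδ : 0 < δ) (ρ : ZZ) : qq δ ρ ≤ mm δ := by
  refine le_ciSup (f := fun ρ : ZZ => qq δ ρ) ⟨∑' ρ : ZZ, qq δ ρ, ?_⟩ ρ
  rintro _ ⟨z, rfl⟩
  exact (qq_summable hz hδ).le_tsum z fun _ _ => qq_nonneg _ _

lemma mm_nonneg (δ : ℝ) : 0 ≤ mm δ := Real.iSup_nonneg fun ρ => qq_nonneg _ _

/-- linear independence of the positive ordinates -/
def LI : Prop := LinearIndependent ℚ (fun ρ : {ρ : ℂ // ρ ∈ ZZ ∧ 0 < ρ.im} => (ρ : ℂ).im)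

theorem good (hz : ZC) (hLI : LI) {δ : ℝ} (hδ : 0 < δ) : Good (gd δ) (vR δ) (mm δ) := by
  have hη0 : 0 < Real.log (1 + δ) := Real.log_pos (by linarith)
  have h := Pool.Agent.H383.MS.K8.t_K8 ff ff_meas ff_bdd ZZ (fun ρ hρ => (hz.strip hρ).1) (fun ρ hρ => conj_mem hρ)
    (fun ρ hρ => Pool.Agent.H313.ZC.im_ne hρ) rr (fun ρ hρ => by
      unfold rr
      rw [deriv_conj hρ, map_div₀, map_mul, map_one]) (by
      simp_rw [rr_sq]
      exact hz.2.2) (fun S hS => by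
      have h1 := (AlmostPeriodic.result.2 (wm_iff.2 hz)).2.1 S hS
      have e1 : (fun v : ℝ => ‖((ff v : ℝ) : ℂ) - ∑ ρ ∈ S, rr ρ * Complex.exp ((ρ - 1 / 2) * v)‖ ^ 2) =
          fun v : ℝ => ‖((AlmostPeriodic.f v : ℝ) : ℂ) - AlmostPeriodic.partialSum S v‖ ^ 2 := by
        funext v
        have e2 : AlmostPeriodic.partialSum S v = ∑ ρ ∈ S, rr ρ * Complex.exp ((ρ - 1 / 2) * v) := by
          unfold AlmostPeriodic.partialSum rr
          exact Finset.sum_congr rfl fun ρ _ => by ring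
        rw [e2]
        rfl
      rw [e1]
      simp_rw [rr_sq]
      exact h1) hLI (Real.log (1 + δ)) (1 / √(6 / Real.pi ^ 2 * δ)) (mm δ) hη0.le (mm_nonneg δ)
      (fun ρ hρ => qq_le hz hδ ⟨ρ, hρ⟩)
  have e1 : ∑' ρ : ZZ, ‖((1 / √(6 / Real.pi ^ 2 * δ) : ℝ) : ℂ) * (Complex.exp ((Real.log (1 + δ) : ℝ) * (ρ : ℂ)) - 1) * rr ρ‖ ^ 2 =
      vR δ := qq_tsum hz hδ
  rw [e1] at h
  exact h

/-- no single zero dominates -/
theorem mm_lim (hz : ZC) {α : ℝ} (hA : Tendsto (fun T => AA ww gg T / T) atTop (𝓝 α)) : Tendsto mm (𝓝[>] 0) (𝓝 0) := by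
  have hpi := Real.pi_pos
  have := hz.countable
  rw [Metric.tendsto_nhds]
  intro ε hε
  have h1 := Pool.Agent.H93.MS.K7.t_K7 ZZ ww gg hz.dat α hA (ε / Real.pi ^ 2) (by positivity)
  have h2 := tendsto_log1.eventually h1
  have h3 : ∀ᶠ δ in 𝓝[>] (0 : ℝ), δ < 1 := by
    filter_upwards [Ioo_mem_nhdsGT (show (0 : ℝ) < 1 by norm_num)] with δ hδ
    exact hδ.2
  have h4 : ∀ᶠ δ in 𝓝[>] (0 : ℝ), W * (Real.pi ^ 2 / 6) * δ < ε / 3 := by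
    have h5 : Continuous fun δ : ℝ => W * (Real.pi ^ 2 / 6) * δ := by fun_prop
    have h6 := h5.tendsto 0
    rw [mul_zero] at h6
    exact (h6.mono_left nhdsWithin_le_nhds).eventually (gt_mem_nhds (by positivity))
  filter_upwards [h2, h3, h4, self_mem_nhdsWithin] with δ h5 h6 h7 h8
  have hδ : 0 < δ := h8
  obtain ⟨hl1, hl2⟩ := log_bound hδ h6.le
  have hη0 : 0 < Real.log (1 + δ) := Real.log_pos (by linarith)
  rw [Real.dist_eq, sub_zero, abs_of_nonneg (mm_nonneg δ)]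
  have h9 : mm δ ≤ 2 * ε / 3 := by
    refine Real.iSup_le (fun ρ => ?_) (by positivity)
    rw [qq_eq hz hδ, div_le_iff₀ (kap_pos hδ)]
    obtain ⟨η, hη⟩ : ∃ η : ℝ, η = Real.log (1 + δ) := ⟨_, rfl⟩
    rw [← hη] at hl1 hl2 hη0 ⊢
    have h10 : Real.exp (η / 2) ≤ 1 + δ / 2 := by
      have e0 : Real.exp (η / 2) ^ 2 = 1 + δ := by
        rw [← Real.exp_nat_mul]
        push_cast
        rw [show 2 * (η / 2) = η by ring, hη, Real.exp_log (by linarith)]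
      have e1 : (1 + δ) ≤ (1 + δ / 2) ^ 2 := by nlinarith
      nlinarith [Real.exp_pos (η / 2)]
    have h11 : 1 ≤ Real.exp (η / 2) := Real.one_le_exp (by positivity)
    have h12 : (Real.exp (η / 2) - 1) ^ 2 ≤ δ ^ 2 := by nlinarith
    have h13 : ww ρ * (2 * (1 - Real.cos (gg ρ * η))) ≤ ε / Real.pi ^ 2 * η := by
      have e2 := h5 ρ
      rw [← hη] at e2
      refine le_trans (mul_le_mul_of_nonneg_left ?_ (hz.dat.w0 ρ)) e2
      refine le_min ?_ ?_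
      · have := Real.neg_one_le_cos (gg ρ * η)
        linarith
      · have := Real.one_sub_sq_div_two_le_cos (x := gg ρ * η)
        nlinarith
    have h14 : ww ρ ≤ W := hz.dat.ws.le_tsum ρ fun _ _ => hz.dat.w0 _
    have h15 : 0 ≤ ww ρ * (2 * (1 - Real.cos (gg ρ * η))) := by
      have := Real.cos_le_one (gg ρ * η)
      exact mul_nonneg (hz.dat.w0 ρ) (by linarith)
    have h16 : ww ρ * (Real.exp (η / 2) - 1) ^ 2 ≤ W * δ ^ 2 := by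
      have := hz.dat.w0 ρ
      have := W_nonneg
      exact mul_le_mul h14 h12 (sq_nonneg _) this
    have h17 : Real.exp (η / 2) * (ww ρ * (2 * (1 - Real.cos (gg ρ * η)))) ≤ 2 * (ε / Real.pi ^ 2 * δ) := by
      have e3 : ε / Real.pi ^ 2 * η ≤ ε / Real.pi ^ 2 * δ := by gcongr
      refine mul_le_mul (by linarith) (h13.trans e3) h15 (by norm_num)
    have h18 : W * δ ^ 2 ≤ ε / 3 * (6 / Real.pi ^ 2 * δ) := by
      have e4 : W * δ ^ 2 = (W * (Real.pi ^ 2 / 6) * δ) * (6 / Real.pi ^ 2 * δ) := by field_simp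
      rw [e4]
      exact mul_le_mul_of_nonneg_right h7.le (kap_pos hδ).le
    have h19 : 2 * (ε / Real.pi ^ 2 * δ) = ε / 3 * (6 / Real.pi ^ 2 * δ) := by ring
    calc ww ρ * (Real.exp (η / 2) - 1) ^ 2 + Real.exp (η / 2) * (ww ρ * (2 * (1 - Real.cos (gg ρ * η))))
        ≤ W * δ ^ 2 + 2 * (ε / Real.pi ^ 2 * δ) := add_le_add h16 h17
      _ ≤ ε / 3 * (6 / Real.pi ^ 2 * δ) + ε / 3 * (6 / Real.pi ^ 2 * δ) := by rw [h19]; linarith
      _ = _ := by ring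
  linarith

/-- `ν` is the limit law of the normalised sums, with respect to the logarithmic measure -/
def IsLaw (δ : ℝ) (ν : ProbabilityMeasure ℝ) : Prop :=
  ∀ φ : ℝ → ℝ, Continuous φ → (∃ B : ℝ, ∀ t, |φ t| ≤ B) →
    Tendsto (fun x : ℝ => (∫ u in (1 : ℝ)..x, φ ((Mf ((1 + δ) * u) - Mf u) / √(6 / Real.pi ^ 2 * δ * u)) / u) / Real.log x)
      atTop (𝓝 (∫ t, φ t ∂(ν : Measure ℝ)))

lemma quad_of_bdd {φ : ℝ → ℝ} {B : ℝ} (hB : ∀ t, |φ t| ≤ B) : ∀ t, |φ t| ≤ B * (1 + t ^ 2) := by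
  intro t
  have h0 : 0 ≤ B := (abs_nonneg _).trans (hB 0)
  have := hB t
  nlinarith [sq_nonneg t, mul_nonneg h0 (sq_nonneg t)]

/-- log mean and mean -/
lemma cov_lim {δ : ℝ} (hδ : 0 < δ) (φ : ℝ → ℝ) {L : ℝ} (h : Tendsto (mean fun v => φ (gd δ v)) atTop (𝓝 L)) :
    Tendsto (fun x : ℝ => (∫ u in (1 : ℝ)..x, φ ((Mf ((1 + δ) * u) - Mf u) / √(6 / Real.pi ^ 2 * δ * u)) / u) / Real.log x)
      atTop (𝓝 L) := by
  refine (h.comp Real.tendsto_log_atTop).congr' ?_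
  filter_upwards [eventually_ge_atTop (1 : ℝ)] with x hx
  rw [cov δ hδ _ (kap_pos hδ) φ hx]
  rfl

theorem law_quad (hz : ZC) {δ : ℝ} (hδ : 0 < δ) : ∃ μ : ProbabilityMeasure ℝ, IsLaw δ μ ∧
    (∀ φ : ℝ → ℝ, Continuous φ → (∃ B : ℝ, ∀ t, |φ t| ≤ B) →
      Tendsto (mean fun v => φ (gd δ v)) atTop (𝓝 (∫ t, φ t ∂(μ : Measure ℝ)))) ∧
    Integrable (fun t : ℝ => t ^ 2) (μ : Measure ℝ) ∧ ∫ t, t ^ 2 ∂(μ : Measure ℝ) = vR δ := by
  obtain ⟨μ, hμ⟩ := law_exists hz hδ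
  have h2 := hμ (fun t => t ^ 2) 1 (continuous_pow 2) (fun t => by
    rw [abs_of_nonneg (sq_nonneg t)]
    linarith)
  refine ⟨μ, fun φ hφ ⟨B, hB⟩ => cov_lim hδ φ (hμ φ B hφ (quad_of_bdd hB)).2,
    fun φ hφ ⟨B, hB⟩ => (hμ φ B hφ (quad_of_bdd hB)).2, h2.1, tendsto_nhds_unique h2.2 (gd_lim hz hδ)⟩

theorem IsLaw.unique {δ : ℝ} {μ ν : ProbabilityMeasure ℝ} (hμ : IsLaw δ μ) (hν : IsLaw δ ν) : μ = ν := by
  have h : (μ : Measure ℝ) = (ν : Measure ℝ) := by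
    refine ext_of_forall_integral_eq_of_IsFiniteMeasure fun f => ?_
    have hb : ∃ B : ℝ, ∀ t, |f t| ≤ B := ⟨‖f‖, fun t => f.norm_coe_le_norm t⟩
    exact tendsto_nhds_unique (hμ f f.continuous hb) (hν f f.continuous hb)
  exact Subtype.ext h

/-- **the Gaussian law in the iterated limit** -/
theorem gauss_iff (hz : ZC) (hLI : LI) (ν : ℝ → ProbabilityMeasure ℝ) (hν : ∀ δ : ℝ, 0 < δ → IsLaw δ (ν δ)) :
    Tendsto ν (𝓝[>] 0) (𝓝 gaussN) ↔ Tendsto vR (𝓝[>] 0) (𝓝 1) := by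
  have hk2 := Pool.Agent.H276.MS.K2.t_K2 Pool.Agent.H663.MS.K1.t_K1
  have hk3 := Pool.Agent.H474.MSP.K3.t_K3 Pool.Agent.H663.MS.K1.t_K1
  obtain ⟨C, hC0, hC⟩ := Pool.Agent.H351.MS.K5.t_K5 hk2 hk3 Pool.Agent.H474.MSP.K4.t_K4
  have key : ∀ δ : ℝ, 0 < δ →
      (∀ t : ℝ, ‖charFun (ν δ : Measure ℝ) t - Complex.exp (((-(vR δ * t ^ 2 / 2) : ℝ) : ℂ))‖ ≤ C * t ^ 4 * mm δ * vR δ) ∧
      Integrable (fun x : ℝ => x ^ 2) (ν δ : Measure ℝ) ∧ ∫ x, x ^ 2 ∂(ν δ : Measure ℝ) = vR δ ∧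
      ∫⁻ x, ENNReal.ofReal (x ^ 4) ∂(ν δ : Measure ℝ) ≤ ENNReal.ofReal (3 * vR δ ^ 2) := by
    intro δ hδ
    obtain ⟨μ, hμ1, hμ2, hμ3, hμ4⟩ := law_quad hz hδ
    have e : ν δ = μ := (hν δ hδ).unique hμ1
    rw [e]
    obtain ⟨h1, h2⟩ := hC (gd δ) (vR δ) (mm δ) (good hz hLI hδ) μ hμ2
    exact ⟨h1, hμ3, hμ4, h2⟩
  constructor
  · intro h
    exact Pool.Agent.H474.MSP.K6b.t_K6b ν vR (fun δ hδ => ⟨(key δ hδ).2.1, (key δ hδ).2.2.1, (key δ hδ).2.2.2⟩) h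
  · intro h
    have := hz.countable
    have hA : Tendsto (fun T => AA ww gg T / T) atTop (𝓝 (2 * (3 / Real.pi ^ 3 * 1))) := by
      have hpi := Real.pi_pos
      rw [AA_lim_iff hz _ (by positivity)]
      exact (lim_iff_ZC hz 1 zero_le_one).1 h
    exact Pool.Agent.H345.MS.K6a.t_K6a ν vR mm C (fun δ hδ => (key δ hδ).1) h (mm_lim hz hA)

end Pool.Agent.H474.MS
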