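import Pool.Agent.H474.MS.Nt3
import Pool.Agent.H337.MS.L9
import Pool.Agent.H241.MS.L1b

set_option autoImplicit false

/-! # Project MS: the order of magnitude of `J_{-1}(T)` -/

namespace Pool.Agent.H474.MS

open Filter Topology MeasureTheory Set

/-- `A(T) ≤ 4 T² S(1/T)` -/
theorem AA_le_SS {ι : Type} {w g : ι → ℝ} (hd : Dat w g) {T : ℝ} (hT0 : 0 < T) :
    AA w g T ≤ 4 * T ^ 2 * SS w g (1 / T) := by
  unfold AA SS
  rw [← tsum_mul_left]
  refine (AA_summable hd T).tsum_le_tsum (fun i => ?_) ((SS_summable hd (1 / T)).mul_left _)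
  split_ifs with h
  · have h3 : g i * (1 / T) ≤ 1 := by
      rw [mul_one_div, div_le_one hT0]
      exact h
    have h4 := Pool.Agent.H118.MS.L10.cos_bd (mul_nonneg (hd.g0 i) (by positivity : (0 : ℝ) ≤ 1 / T)) h3
    have h5 : g i ^ 2 = T ^ 2 * (g i * (1 / T)) ^ 2 := by
      field_simp
    rw [h5]
    calc w i * (T ^ 2 * (g i * (1 / T)) ^ 2)
        ≤ w i * (T ^ 2 * (4 * (2 * (1 - Real.cos (g i * (1 / T)))))) :=
          mul_le_mul_of_nonneg_left (mul_le_mul_of_nonneg_left h4 (sq_nonneg T)) (hd.w0 i)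
      _ = 4 * T ^ 2 * (w i * (2 * (1 - Real.cos (g i * (1 / T))))) := by ring
  · refine mul_nonneg (by positivity) (mul_nonneg (hd.w0 i) ?_)
    linarith [Real.cos_le_one (g i * (1 / T))]

/-- a lower bound for `S` from one for `A` -/
theorem SS_low {ι : Type} {w g : ι → ℝ} (hd : Dat w g) {c T0 : ℝ} (h : ∀ T : ℝ, T0 ≤ T → c * T ≤ AA w g T) :
    ∃ h0 : ℝ, 0 < h0 ∧ ∀ h : ℝ, 0 < h → h ≤ h0 → c / 4 * h ≤ SS w g h := by
  refine ⟨1 / max T0 1, by positivity, fun η h0 h1 => ?_⟩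
  have hT : max T0 1 ≤ 1 / η := by
    rw [le_div_iff₀ h0]
    rwa [le_div_iff₀ (by positivity), mul_comm] at h1
  have h2 := h (1 / η) ((le_max_left _ _).trans hT)
  have h3 := AA_le_SS hd (T := 1 / η) (by positivity)
  rw [one_div_one_div] at h3
  have h4 := h2.trans h3
  have h5 : c * (1 / η) * (η ^ 2 / 4) ≤ 4 * (1 / η) ^ 2 * SS w g η * (η ^ 2 / 4) :=
    mul_le_mul_of_nonneg_right h4 (by positivity)
  have e1 : c * (1 / η) * (η ^ 2 / 4) = c / 4 * η := by field_simp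
  have e2 : 4 * (1 / η) ^ 2 * SS w g η * (η ^ 2 / 4) = SS w g η := by field_simp
  rwa [e1, e2] at h5

/-- a lower bound for `A` from one for `S` and an upper bound for `A` -/
theorem AA_low {ι : Type} [Countable ι] {w g : ι → ℝ} (hd : Dat w g) {c C h0 : ℝ} (hc : 0 < c) (hh0 : 0 < h0)
    (hC : ∀ T : ℝ, 1 ≤ T → AA w g T ≤ C * T) (h : ∀ h : ℝ, 0 < h → h ≤ h0 → c * h ≤ SS w g h) :
    ∃ c' : ℝ, 0 < c' ∧ ∃ T0 : ℝ, ∀ T : ℝ, T0 ≤ T → c' * T ≤ AA w g T := by
  have hC0 : 0 ≤ C := by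
    have h1 := hC 1 le_rfl
    have h2 := AA_nonneg hd 1
    linarith
  obtain ⟨R, hR⟩ : ∃ R : ℝ, R = 16 * C / c + 1 := ⟨_, rfl⟩
  have hR1 : 1 ≤ R := by
    rw [hR]
    have : 0 ≤ 16 * C / c := by positivity
    linarith
  have hR0 : 0 < R := by linarith
  refine ⟨c / (2 * R), by positivity, max R (R / h0), fun T hT => ?_⟩
  have hTR : R ≤ T := (le_max_left _ _).trans hT
  have hT0 : 0 < T := hR0.trans_le hTR
  have hη : R / T ≤ h0 := by
    have := (le_max_right _ _).trans hT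
    rw [div_le_iff₀ hh0] at this
    rw [div_le_iff₀ hT0]
    linarith
  have h1 := h (R / T) (by positivity) hη
  have h2 := Pool.Agent.H337.MS.L9.key hd (h := R / T) (T := T)
  have h3 := Pool.Agent.H241.MS.L1b.t_L1b ι w g hd C hC T (hR1.trans hTR)
  have h4 : 4 * RR w g T ≤ 8 * C / T := by
    calc 4 * RR w g T ≤ 4 * (2 * C / T) := by gcongr
      _ = 8 * C / T := by ring
  have h5 : 8 * C ≤ c * R / 2 := by
    rw [hR]
    have : c * (16 * C / c + 1) / 2 = 8 * C + c / 2 := by field_simp; ring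
    rw [this]
    linarith
  have h6 : c * (R / T) ≤ (R / T) ^ 2 * AA w g T + (c * R / 2) / T := by
    have : 8 * C / T ≤ (c * R / 2) / T := by gcongr
    linarith
  have h7 : c * R / 2 * (1 / T) ≤ (R / T) ^ 2 * AA w g T := by
    have : c * (R / T) = c * R / 2 * (1 / T) + (c * R / 2) / T := by ring
    linarith
  have h8 : c * R / 2 * (1 / T) * (T ^ 2 / R ^ 2) ≤ (R / T) ^ 2 * AA w g T * (T ^ 2 / R ^ 2) :=
    mul_le_mul_of_nonneg_right h7 (by positivity)
  have e1 : c * R / 2 * (1 / T) * (T ^ 2 / R ^ 2) = c / (2 * R) * T := by field_simp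
  have e2 : (R / T) ^ 2 * AA w g T * (T ^ 2 / R ^ 2) = AA w g T := by field_simp
  rwa [e1, e2] at h8

lemma VV_le_of (hz : ZC) {η : ℝ} (h0 : 0 < η) (h1 : η ≤ 1) : VV η ≤ 2 * SS ww gg η + η ^ 2 * W := by
  have e1 : Real.exp (η / 2) ≤ 1 + η := by
    have h2 := Real.abs_exp_sub_one_sub_id_le (x := η / 2) (by rw [abs_of_pos (by positivity)]; linarith)
    have h3 := (abs_le.1 h2).2
    nlinarith
  have e2 : 1 ≤ Real.exp (η / 2) := Real.one_le_exp (by positivity)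
  have e3 : (Real.exp (η / 2) - 1) ^ 2 ≤ η ^ 2 := by
    apply pow_le_pow_left₀ <;> linarith
  have e4 := SS_nonneg hz.dat η
  unfold VV
  have e5 : (Real.exp (η / 2) - 1) ^ 2 * W ≤ η ^ 2 * W := mul_le_mul_of_nonneg_right e3 W_nonneg
  have e6 : Real.exp (η / 2) * SS ww gg η ≤ 2 * SS ww gg η := mul_le_mul_of_nonneg_right (by linarith) e4
  linarith

lemma SS_le_VV (hz : ZC) {η : ℝ} (h0 : 0 < η) : SS ww gg η ≤ VV η := by
  unfold VV
  have e1 : 1 ≤ Real.exp (η / 2) := Real.one_le_exp (by positivity)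
  have e2 := SS_nonneg hz.dat η
  have e3 : 0 ≤ (Real.exp (η / 2) - 1) ^ 2 * W := mul_nonneg (sq_nonneg _) W_nonneg
  nlinarith

/-- the upper bound on an interval `(0, δ₀]` is enough -/
lemma bdd_of {C δ0 : ℝ} (h0 : 0 < δ0) (h : ∀ δ : ℝ, 0 < δ → δ ≤ δ0 → vE δ ≤ ENNReal.ofReal C) :
    ∃ C' : ℝ, ∀ δ : ℝ, 0 < δ → δ ≤ 1 → vE δ ≤ ENNReal.ofReal C' := by
  have hz : ZC := of_vE h0 (ne_top_of_le_ne_top ENNReal.ofReal_ne_top (h δ0 h0 le_rfl))
  have hpi := Real.pi_pos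
  refine ⟨max C 0 + 9 * W / (6 / Real.pi ^ 2 * δ0), fun δ hδ hδ1 => ?_⟩
  have hW := W_nonneg
  have hk := kap_pos h0
  rcases le_total δ δ0 with h1 | h1
  · refine (h δ hδ h1).trans (ENNReal.ofReal_le_ofReal ?_)
    have h2 : 0 ≤ 9 * W / (6 / Real.pi ^ 2 * δ0) := by positivity
    linarith [le_max_left C 0]
  · rw [vE_eq hz hδ]
    refine ENNReal.ofReal_le_ofReal ?_
    have hl := (log_bound hδ hδ1).1
    have hl0 : 0 < Real.log (1 + δ) := Real.log_pos (by linarith)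
    have h2 := VV_le_of hz hl0 (hl.trans hδ1)
    have h3 : SS ww gg (Real.log (1 + δ)) ≤ 4 * W := SS_le hz.dat _
    have h4 : Real.log (1 + δ) ^ 2 * W ≤ 1 * W := mul_le_mul_of_nonneg_right (by nlinarith) hW
    have h5 : VV (Real.log (1 + δ)) ≤ 9 * W := by linarith
    have h6 : VV (Real.log (1 + δ)) / (6 / Real.pi ^ 2 * δ) ≤ 9 * W / (6 / Real.pi ^ 2 * δ0) := by
      gcongr
    linarith [le_max_right C 0]

theorem t_bdd : (∃ C : ℝ, ∀ δ : ℝ, 0 < δ → δ ≤ 1 → vE δ ≤ ENNReal.ofReal C) ↔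
    RiemannHypothesis ∧ ∃ C : ℝ, ∀ T : ℝ, 1 ≤ T → JJ T ≤ ENNReal.ofReal (C * T) :=
  bdd_iff (Pool.Agent.H337.MS.L9.t_L9 Pool.Agent.H241.MS.L1b.t_L1b)

lemma JJ_mono {S T : ℝ} (h : S ≤ T) : JJ S ≤ JJ T := by
  unfold JJ
  refine ENNReal.tsum_le_tsum fun ρ => ?_
  by_cases h1 : 0 < (ρ : ℂ).im ∧ (ρ : ℂ).im ≤ S
  · rw [if_pos h1, if_pos ⟨h1.1, h1.2.trans h⟩]
  · rw [if_neg h1]
    exact bot_le

/-- **The order of magnitude.** -/
theorem order_iff :
    (∃ c C δ0 : ℝ, 0 < c ∧ 0 < δ0 ∧ ∀ δ : ℝ, 0 < δ → δ ≤ δ0 → ENNReal.ofReal c ≤ vE δ ∧ vE δ ≤ ENNReal.ofReal C) ↔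
    RiemannHypothesis ∧ ∃ c C T0 : ℝ, 0 < c ∧ ∀ T : ℝ, T0 ≤ T → ENNReal.ofReal (c * T) ≤ JJ T ∧ JJ T ≤ ENNReal.ofReal (C * T) := by
  have hpi := Real.pi_pos
  obtain ⟨K, hK⟩ : ∃ K : ℝ, K = 6 / Real.pi ^ 2 := ⟨_, rfl⟩
  have hK0 : 0 < K := by rw [hK]; positivity
  constructor
  · rintro ⟨c, C, δ0, hc, hδ0, h⟩
    have hz : ZC := of_vE hδ0 (ne_top_of_le_ne_top ENNReal.ofReal_ne_top (h δ0 hδ0 le_rfl).2)
    have := hz.countable
    have hW := W_nonneg
    obtain ⟨hRH, C1, hC1⟩ := t_bdd.1 (bdd_of hδ0 fun δ h1 h2 => (h δ h1 h2).2)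
    obtain ⟨C2, hC2⟩ := (AA_le_iff hz).2 ⟨C1, hC1⟩
    obtain ⟨h0, hh0, hh0'⟩ : ∃ h0 : ℝ, h0 = min (min 1 (Real.log (1 + δ0))) (c * K / (2 * (W + 1))) ∧ 0 < h0 := by
      refine ⟨_, rfl, lt_min (lt_min one_pos (Real.log_pos (by linarith))) (by positivity)⟩
    obtain ⟨c', hc', T0, hT0⟩ := AA_low hz.dat (c := c * K / 4) (C := C2) (h0 := h0) (by positivity) hh0' hC2
      (fun η h1 h2 => by
        obtain ⟨δ, hδ⟩ : ∃ δ : ℝ, δ = Real.exp η - 1 := ⟨_, rfl⟩
        have hδη : η ≤ δ := by have := Real.add_one_le_exp η; linarith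
        have hδp : 0 < δ := h1.trans_le hδη
        have hlog : Real.log (1 + δ) = η := by rw [hδ]; ring_nf; exact Real.log_exp η
        have a1 : η ≤ 1 := h2.trans (by rw [hh0]; exact (min_le_left _ _).trans (min_le_left _ _))
        have a2 : η ≤ Real.log (1 + δ0) := h2.trans (by rw [hh0]; exact (min_le_left _ _).trans (min_le_right _ _))
        have a3 : η ≤ c * K / (2 * (W + 1)) := h2.trans (by rw [hh0]; exact min_le_right _ _)
        have a4 : δ ≤ δ0 := by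
          have := Real.exp_le_exp.2 a2
          rw [Real.exp_log (by linarith)] at this
          linarith
        have b1 := (h δ hδp a4).1
        rw [vE_eq hz hδp, hlog, ENNReal.ofReal_le_ofReal_iff
          (div_nonneg ((SS_nonneg hz.dat η).trans (SS_le_VV hz h1)) (kap_pos hδp).le), ← hK, le_div_iff₀ (by positivity)] at b1
        have b2 := VV_le_of hz h1 a1
        have b3 : c * (K * η) ≤ c * (K * δ) := by gcongr
        have b4 : η * (2 * (W + 1)) ≤ c * K := by rwa [le_div_iff₀ (by positivity)] at a3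
        have b5 : η ^ 2 * W ≤ c * K / 2 * η := by
          have : η * W ≤ c * K / 2 := by nlinarith
          calc η ^ 2 * W = η * (η * W) := by ring
            _ ≤ η * (c * K / 2) := by gcongr
            _ = _ := by ring
        nlinarith)
    refine ⟨hRH, c' / 2, C1, max T0 1, by positivity, fun T hT => ⟨?_, hC1 T ((le_max_right _ _).trans hT)⟩⟩
    rw [JJ_eq hz]
    refine ENNReal.ofReal_le_ofReal ?_
    have h1 := hT0 T ((le_max_left _ _).trans hT)
    have h2 := QQ_nonneg hz.dat T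
    linarith
  · rintro ⟨hRH, c, C, T0, hc, h⟩
    have hb : ∀ T : ℝ, 1 ≤ T → JJ T ≤ ENNReal.ofReal ((max C 0 * max T0 1) * T) := by
      intro T hT
      have h1 := (JJ_mono (le_max_left T T0)).trans (h (max T T0) (le_max_right _ _)).2
      refine h1.trans (ENNReal.ofReal_le_ofReal ?_)
      have h2 : max T T0 ≤ max T0 1 * T := by
        refine max_le ?_ ?_
        · nlinarith [le_max_right T0 1]
        · rcases le_total T0 0 with h3 | h3
          · exact h3.trans (by positivity)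
          · nlinarith [le_max_left T0 1, le_max_right T0 1]
      have h3 : 0 ≤ max T T0 := le_trans (by linarith) (le_max_left T T0)
      calc C * max T T0 ≤ max C 0 * max T T0 := mul_le_mul_of_nonneg_right (le_max_left _ _) h3
        _ ≤ max C 0 * (max T0 1 * T) := by gcongr
        _ = _ := by ring
    have hz : ZC := of_JJ hRH hb
    have := hz.countable
    have hW := W_nonneg
    obtain ⟨C', hC'⟩ := t_bdd.2 ⟨hRH, _, hb⟩
    obtain ⟨h0, hh0, hS⟩ := SS_low hz.dat (c := c) (T0 := max (max T0 1) (W / c)) (fun T hT => by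
      have h1 := (h T ((le_max_left _ _).trans ((le_max_left _ _).trans hT))).1
      have hT1 : 1 ≤ T := (le_max_right _ _).trans ((le_max_left _ _).trans hT)
      have hTW : W / c ≤ T := (le_max_right _ _).trans hT
      rw [div_le_iff₀ hc] at hTW
      have h3 := AA_nonneg hz.dat T
      have h4 := QQ_nonneg hz.dat T
      rw [JJ_eq hz, ENNReal.ofReal_le_ofReal_iff (by positivity)] at h1
      have h5 : QQ ww gg T ≤ W := QQ_le hz.dat T
      nlinarith)
    refine ⟨c / (8 * K), C', min 1 h0, by positivity, lt_min one_pos hh0, fun δ hδ hδ1 => ⟨?_, hC' δ hδ (hδ1.trans (min_le_left _ _))⟩⟩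
    have hl := log_bound hδ (hδ1.trans (min_le_left _ _))
    have hl0 : 0 < Real.log (1 + δ) := Real.log_pos (by linarith)
    have h1 := hS (Real.log (1 + δ)) hl0 (hl.1.trans (hδ1.trans (min_le_right _ _)))
    have h2 := SS_le_VV hz hl0
    rw [vE_eq hz hδ]
    refine ENNReal.ofReal_le_ofReal ?_
    rw [← hK, le_div_iff₀ (by positivity)]
    have h3 : c / (8 * K) * (K * δ) = c / 8 * δ := by field_simp
    rw [h3]
    nlinarith

end Pool.Agent.H474.MS
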