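import Mathlib

/-!
# Project MS (helper474): mean square of Moebius sums over `(u, (1+δ)u]` and `J_{-1}(T)`

Abstract part: `w i ≥ 0` summable weights, `g i ≥ 0` frequencies (later `w = 1/|ρ ζ'(ρ)|²`, `g = |Im ρ|`).
Goal: `A(T)/T → α` (`T → ∞`) if and only if `S(h)/h → π α` (`h → 0+`), and the same for bounds.
-/

set_option autoImplicit false

namespace Pool.Agent.H474.MS

open Filter Topology MeasureTheory Set

/-- `A(T) = ∑_{g_i ≤ T} w_i g_i²` -/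
noncomputable def AA {ι : Type} (w g : ι → ℝ) (T : ℝ) : ℝ := ∑' i, if g i ≤ T then w i * g i ^ 2 else 0

/-- `R(T) = ∑_{g_i > T} w_i` -/
noncomputable def RR {ι : Type} (w g : ι → ℝ) (T : ℝ) : ℝ := ∑' i, if T < g i then w i else 0

/-- `S(h) = ∑ w_i 2 (1 - cos (g_i h))` -/
noncomputable def SS {ι : Type} (w g : ι → ℝ) (h : ℝ) : ℝ := ∑' i, w i * (2 * (1 - Real.cos (g i * h)))

/-- `G(y) = ∑ w_i g_i² e^{-g_i² y²/2}` -/
noncomputable def GG {ι : Type} (w g : ι → ℝ) (y : ℝ) : ℝ :=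
  ∑' i, w i * g i ^ 2 * Real.exp (-(g i ^ 2 * y ^ 2 / 2))

/-- the data: nonnegative summable weights, nonnegative frequencies -/
structure Dat {ι : Type} (w g : ι → ℝ) : Prop where
  w0 : ∀ i, 0 ≤ w i
  ws : Summable w
  g0 : ∀ i, 0 ≤ g i

/-- `L0` (no summability known): if `∑_{g_i ≤ T} b_i ≤ C T` for `T ≥ 1` then `∑ b_i / max(g_i,1)² ≤ 2 C`.
Proof: `1/max(g,1)² = ∫_1^∞ 1[g ≤ t] 2 t^{-3} dt`, sum over a finite set of `i` (`ENNReal.tsum_eq_iSup_sum`), exchange the finite sum and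
the integral, `∑_{i ∈ s, g_i ≤ t} b_i ≤ C t`, `∫_1^∞ 2 t^{-3} C t dt = 2 C`. -/
def S_L0 : Prop := ∀ (ι : Type) (b : ι → ENNReal) (g : ι → ℝ) (C : ℝ), 0 ≤ C →
  (∀ T : ℝ, 1 ≤ T → ∑' i, (if g i ≤ T then b i else 0) ≤ ENNReal.ofReal (C * T)) →
  ∑' i, b i * ENNReal.ofReal (1 / (max (g i) 1) ^ 2) ≤ ENNReal.ofReal (2 * C)

/-- `L1`: `A(T)/T → α` implies `T R(T) → α`.
Proof: for `T > 0` put `B(T) = ∑ w_i min(1, g_i²/T²) = A(T)/T² + R(T)`. As `∫_T^∞ 1[g ≤ t] 2 t^{-3} dt = 1/max(g,T)²` and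
`g²/max(g,T)² = min(1, g²/T²)`, `B(T) = ∫_T^∞ 2 t^{-3} A(t) dt` (`hasSum_integral_of_summable_integral_norm` or `integral_tsum`).
If `|A(t) - α t| ≤ ε t` for `t ≥ T` then `|T B(T) - 2 α| ≤ T ∫_T^∞ 2 ε t^{-2} dt = 2 ε`. So `T B(T) → 2 α`, and
`T R(T) = T B(T) - A(T)/T → α`. -/
def S_L1 : Prop := ∀ (ι : Type) [Countable ι] (w g : ι → ℝ), Dat w g → ∀ α : ℝ,
  Tendsto (fun T => AA w g T / T) atTop (𝓝 α) → Tendsto (fun T => T * RR w g T) atTop (𝓝 α)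

/-- `L1b`: `A(T) ≤ C T` for `T ≥ 1` implies `R(T) ≤ 2 C / T` for `T ≥ 1`.
Proof: `R(T) ≤ B(T) = ∫_T^∞ 2 t^{-3} A(t) dt ≤ ∫_T^∞ 2 C t^{-2} dt = 2 C / T` (see `L1`). -/
def S_L1b : Prop := ∀ (ι : Type) [Countable ι] (w g : ι → ℝ), Dat w g → ∀ C : ℝ,
  (∀ T : ℝ, 1 ≤ T → AA w g T ≤ C * T) → ∀ T : ℝ, 1 ≤ T → RR w g T ≤ 2 * C / T

/-- `L2`: for `R ≥ 0`, `h > 0`: `∑ w_i 2 (1 - cos (min (g_i h) R)) = ∫_0^R 2 sin s · R(s/h) ds`.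
Proof: `R(s/h) = ∑ w_i 1[s < g_i h]`, exchange (`∑ w_i ∫_0^R |2 sin s| ds ≤ 2R ∑ w_i < ∞`), and
`∫_0^R 2 sin s 1[s < x] ds = ∫_0^{min(x,R)} 2 sin s ds = 2 (1 - cos (min x R))` for `x ≥ 0`. -/
def S_L2 : Prop := ∀ (ι : Type) [Countable ι] (w g : ι → ℝ), Dat w g → ∀ R h : ℝ, 0 ≤ R → 0 < h →
  ∑' i, w i * (2 * (1 - Real.cos (min (g i * h) R))) = ∫ s in (0 : ℝ)..R, 2 * Real.sin s * RR w g (s / h)

/-- `L3`: if `T R(T) → α` then `(1/h) ∫_0^R 2 sin s · R(s/h) ds → α ∫_0^R 2 sin s / s ds` as `h → 0+`.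
Proof: dominated convergence (`intervalIntegral.tendsto_integral_filter_of_dominated_convergence`; `𝓝[>] 0` is countably generated).
`u R(u) ≤ C` for all `u > 0` (near infinity by the limit, and `u R(u) ≤ u ∑ w_i` always, `R ≥ 0`), so
`|2 sin s · R(s/h)/h| ≤ 2 s · R(s/h)/h ≤ 2 C` for `s > 0`; pointwise `R(s/h)/h = (1/s) · (s/h) R(s/h) → α/s`. `R` is antitone, hence
measurable (`RR` of a summable family). -/
def S_L3 : Prop := ∀ (ι : Type) [Countable ι] (w g : ι → ℝ), Dat w g → ∀ α : ℝ,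
  Tendsto (fun T => T * RR w g T) atTop (𝓝 α) → ∀ R : ℝ, 0 < R →
  Tendsto (fun h => (∫ s in (0 : ℝ)..R, 2 * Real.sin s * RR w g (s / h)) / h) (𝓝[>] 0)
    (𝓝 (α * ∫ s in (0 : ℝ)..R, 2 * Real.sin s / s))

/-- `L4`: if `T R(T) → α` then `S(h)/h` converges as `h → 0+`.
Proof (uses `L2`, `L3`): let `R = 2 π m`, `m ≥ 1`. If `g_i h ≤ R` the terms of `S(h)` and of the sum in `L2` agree, if `g_i h > R` the
latter is `0` and the former is in `[0, 4 w_i]`; so `0 ≤ S(h) - (sum of L2) ≤ 4 R(R/h)`, and `(4/h) R(R/h) ≤ 4 C / R` (`u R(u) ≤ C` for all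
`u > 0`). With `L3`, for each `m` eventually `|S(h)/h - β_m| ≤ 4 C/(2 π m) + 1/m`; hence `S(h)/h` is Cauchy along `𝓝[>] 0`
(`cauchy_map_iff_exists_tendsto`, `Metric.cauchy_iff`). -/
def S_L4 : Prop := ∀ (ι : Type) [Countable ι] (w g : ι → ℝ), Dat w g → ∀ α : ℝ,
  Tendsto (fun T => T * RR w g T) atTop (𝓝 α) → ∃ β : ℝ, Tendsto (fun h => SS w g h / h) (𝓝[>] 0) (𝓝 β)

/-- `L5`: a Gaussian integral. Proof: on all of `ℝ` (even integrand, factor `2`) with `E = e^{-κ²/2}`: `(κ²-1) E = -(κ E)'`, so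
`∫_ℝ (κ²-1) E = 0` and two integrations by parts give `∫_ℝ (κ²-1) E cos(κt) dκ = -t² ∫_ℝ E cos(κ t) dκ = -t² √(2π) e^{-t²/2}`
(`fourierIntegral_gaussian` or `integral_cexp_quadratic`). -/
def S_L5 : Prop := ∀ t : ℝ,
  ∫ κ in Ioi (0 : ℝ), (κ ^ 2 - 1) * Real.exp (-(κ ^ 2 / 2)) * (2 * (1 - Real.cos (t * κ))) =
    √(2 * Real.pi) * (t ^ 2 * Real.exp (-(t ^ 2 / 2)))

/-- `L5b`: `∫_0^∞ (κ²-1) e^{-κ²/2} κ dκ = 1`. -/
def S_L5b : Prop := ∫ κ in Ioi (0 : ℝ), (κ ^ 2 - 1) * Real.exp (-(κ ^ 2 / 2)) * κ = 1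

/-- `L6`: if `S(h)/h → β` then `y G(y) → β/√(2π)` as `y → 0+`.
Proof (uses `L5`, `L5b`): with `t = g_i y` in `L5`, `w_i g_i² e^{-g_i² y²/2} = y^{-2} w_i t² e^{-t²/2}
= y^{-2} (2π)^{-1/2} w_i ∫_0^∞ k(κ) 2(1 - cos(g_i y κ)) dκ`, `k(κ) = (κ²-1) e^{-κ²/2}`; summing (absolutely convergent, the cosine factor is
at most `4`): `y G(y) = (2π)^{-1/2} ∫_0^∞ k(κ) S(yκ)/y dκ`. Now `S(yκ)/y → β κ` for each `κ > 0` and `0 ≤ S(u) ≤ C u` for all `u > 0`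
(near `0` by the limit, elsewhere as `S ≤ 4 ∑ w_i`), so `|k(κ) S(yκ)/y| ≤ C |k(κ)| κ`: dominated convergence and `L5b`. -/
def S_L6 : Prop := ∀ (ι : Type) [Countable ι] (w g : ι → ℝ), Dat w g → ∀ β : ℝ,
  Tendsto (fun h => SS w g h / h) (𝓝[>] 0) (𝓝 β) →
  Tendsto (fun y => y * GG w g y) (𝓝[>] 0) (𝓝 (β / √(2 * Real.pi)))

/-- `L7` (Karamata's theorem): if `y G(y) → c` as `y → 0+` then `A(T)/T → c √(2/π)`.
Proof: for `y > 0` let `μ_y = y ∑ w_i g_i² δ_{g_i y}` (a measure on `[0,∞)`), `z(x) = e^{-x²/2}`. For every `k ≥ 1`,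
`∫ z^k dμ_y = y G(√k y) → c/√k = c √(2/π) ∫_0^∞ z^k dx`. So the finite measures `z μ_y` have all moments with respect to `z` convergent to
those of `c √(2/π) z dx` on `(0,∞)`; by Weierstrass (`Pool.Agent.Q128.GM.tendsto_of_pow`, and `tendsto_window'` for windows, in the library
module `Pool.Graph.R_pool_sql_team_seeded_3997aac3.Q128.GM.Core`, used in `...Q128.GM.Karamata` for `e^{-x}`) one gets
`μ_y([0,1]) → c √(2/π)`, and with `T = 1/y`: `μ_y([0,1]) = A(T)/T`. (`g_i = 0` contributes nothing.) A direct proof is fine too: sandwich the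
indicator of `[e^{-1/2}, 1]` divided by `z` between polynomials without loss, i.e. the usual Karamata argument. -/
def S_L7 : Prop := ∀ (ι : Type) [Countable ι] (w g : ι → ℝ), Dat w g → ∀ c : ℝ,
  Tendsto (fun y => y * GG w g y) (𝓝[>] 0) (𝓝 c) →
  Tendsto (fun T => AA w g T / T) atTop (𝓝 (c * √(2 / Real.pi)))

/-- `L9`: if `A(T) ≤ C T` for `T ≥ 1` then `S(h) ≤ C' h` for `0 < h ≤ 1`.
Proof (uses `L1b`): `2(1-cos x) ≤ min(x², 4)`, so with `T = 1/h`: `S(h) ≤ h² A(T) + 4 R(T) ≤ C h + 8 C h`. -/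
def S_L9 : Prop := ∀ (ι : Type) [Countable ι] (w g : ι → ℝ), Dat w g → ∀ C : ℝ,
  (∀ T : ℝ, 1 ≤ T → AA w g T ≤ C * T) → ∃ C' : ℝ, ∀ h : ℝ, 0 < h → h ≤ 1 → SS w g h ≤ C' * h

/-- `L10`: if `S(h) ≤ C h` for `0 < h ≤ 1` then `A(T) ≤ C' T` for `T ≥ 1`.
Proof: `h = 1/T`; for `g_i ≤ T`, `x = g_i h ∈ [0,1]` and `1 - cos x ≥ (2/π²) x²` (`Real.one_sub_sq_div_two_le_cos` is the wrong direction; use
`Real.cos_le_one_sub_mul_cos_sq` or `Real.cos_quadratic_upper_bound` or the Taylor bound `Real.cos_le_one_sub...`; any constant will do), so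
`A(T) ≤ T² K S(1/T) ≤ K C T`. -/
def S_L10 : Prop := ∀ (ι : Type) [Countable ι] (w g : ι → ℝ), Dat w g → ∀ C : ℝ,
  (∀ h : ℝ, 0 < h → h ≤ 1 → SS w g h ≤ C * h) → ∃ C' : ℝ, ∀ T : ℝ, 1 ≤ T → AA w g T ≤ C' * T

/-- the mean value over `[0, V]` -/
noncomputable def mean (f : ℝ → ℝ) (V : ℝ) : ℝ := (∫ v in (0 : ℝ)..V, f v) / V

/-- `N1`: the mean square of the increments `e^{h/2} f(v+h) - f(v)`.
Proof: expand the square; `mean (f(v+h)²) V = (1/V) ∫_h^{V+h} f² → W`. `f` is measurable and locally bounded, so everything is integrable. -/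
def S_N1 : Prop := ∀ (f : ℝ → ℝ), Measurable f → (∀ V : ℝ, ∃ B : ℝ, ∀ v ∈ Icc 0 V, |f v| ≤ B) →
  ∀ W c h : ℝ, 0 ≤ h → Tendsto (mean fun v => f v ^ 2) atTop (𝓝 W) → Tendsto (mean fun v => f v * f (v + h)) atTop (𝓝 c) →
  Tendsto (mean fun v => (Real.exp (h / 2) * f (v + h) - f v) ^ 2) atTop
    (𝓝 ((Real.exp h + 1) * W - 2 * Real.exp (h / 2) * c))

/-- `N2`: if the increments have a bounded mean square along a sequence then so has `f`.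
Proof: `k = e^{h/2} f(v+h) - f(v)`; `f(v+h)² = e^{-h} (k + f)² ≤ e^{-h} ((1+t) f² + (1+1/t) k²)` with `1 + t = e^{h/2}`, so with
`F(V) = ∫_0^V f²`: `F(V) - F(h) ≤ F(V+h) - F(h) ≤ e^{-h/2} F(V) + K ∫_0^V k²`; hence `(1 - e^{-h/2}) F(V) ≤ F(h) + K ∫_0^V k²`. -/
def S_N2 : Prop := ∀ (f : ℝ → ℝ), Measurable f → (∀ V : ℝ, ∃ B : ℝ, ∀ v ∈ Icc 0 V, |f v| ≤ B) →
  ∀ h C : ℝ, 0 < h → (∃ᶠ V : ℝ in atTop, mean (fun v => (Real.exp (h / 2) * f (v + h) - f v) ^ 2) V ≤ C) →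
  ∃ C' : ℝ, ∃ᶠ V : ℝ in atTop, mean (fun v => f v ^ 2) V ≤ C'

/-- `N6`: symmetry. `Z` is closed under complex conjugation and has no real elements, `F` is invariant.
Proof: split the sum at the sign of `Im ρ` and use the bijection `ρ ↦ conj ρ` of `Z` (`Equiv.tsum_eq`). -/
def S_N6 : Prop := ∀ (Z : Set ℂ), (∀ ρ ∈ Z, (starRingEnd ℂ) ρ ∈ Z) → (∀ ρ ∈ Z, ρ.im ≠ 0) →
  ∀ F : ℂ → ENNReal, (∀ ρ ∈ Z, F ((starRingEnd ℂ) ρ) = F ρ) → ∀ T : ℝ,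
  ∑' ρ : Z, (if |(ρ : ℂ).im| ≤ T then F ρ else 0) = 2 * ∑' ρ : Z, (if 0 < (ρ : ℂ).im ∧ (ρ : ℂ).im ≤ T then F ρ else 0)

end Pool.Agent.H474.MS
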